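import Pool.Agent.K3h82.PC.Core
import Pool.Agent.K3h82.OT.Fin
import Pool.Agent.K3h82.OP.Ari

/-!
# The conditions at `ℓ` for the curves `x ^ (ℓ ^ m) + y ^ ℓ = a ^ ℓ`
-/

set_option autoImplicit false
set_option linter.all false

open Polynomial FF Pool.Agent.Y157.PS Pool.Agent.TH954 IsDedekindDomain NumberField

namespace Pool.Agent.K3h82.FT

open Pool.Agent.K3h82.BT Pool.Agent.K3h82.OP Pool.Agent.K3h82.OT Pool.Agent.K3h82.PC
open Pool.Agent.Y158.GR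
open Pool.Agent.Y158.KL (lam Kl KLem)

/-- an automorphism and iterated `ℓ`-th roots of elements of the base field -/
theorem pow_ell_fix {K K' : Type} [Field K] [Field K'] [Algebra K K'] {ℓ : ℕ} (hℓ : ℓ ≠ 0) {ζ : K}
    (hζ : IsPrimitiveRoot ζ ℓ) (σ : K' ≃ₐ[K] K') (j : ℕ) :
    ∀ (z : K') (b : K), z ^ (ℓ ^ j) = algebraMap K K' b → (σ ^ (ℓ ^ j)) z = z := by
  have hμ : ∀ (τ : K' ≃ₐ[K] K') (c : K'), c ^ ℓ = 1 → τ c = c := by
    intro τ c hc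
    haveI : NeZero ℓ := ⟨hℓ⟩
    obtain ⟨i, -, hi⟩ := (hζ.map_of_injective (algebraMap K K').injective).eq_pow_of_pow_eq_one hc
    rw [← hi, ← map_pow, τ.commutes]
  induction j with
  | zero =>
    intro z b hz
    rw [pow_zero, pow_one] at hz
    rw [pow_zero, pow_one, hz, σ.commutes]
  | succ j ih =>
    intro z b hz
    have h1 := ih (z ^ ℓ) b (by rw [← pow_mul, ← pow_succ']; exact hz)
    rw [pow_succ, pow_mul]
    exact pow_fix hℓ hμ (σ ^ (ℓ ^ j)) h1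

/-- the Galois group of `X ^ (ℓ ^ m) - b` is an `ℓ`-group -/
theorem gal_pow_ell {K K' : Type} [Field K] [Field K'] [Algebra K K'] {ℓ : ℕ} (hℓ : ℓ ≠ 0) {ζ : K}
    (hζ : IsPrimitiveRoot ζ ℓ) (m : ℕ) (b : K) {f : K[X]}
    (hf : f = X ^ (ℓ ^ m) - C b) (hK' : Algebra.adjoin K (f.rootSet K') = ⊤) (σ : K' ≃ₐ[K] K') :
    σ ^ (ℓ ^ m) = 1 := by
  have h1 : ((σ ^ (ℓ ^ m) : K' ≃ₐ[K] K') : K' →ₐ[K] K') = AlgHom.id K K' := by
    refine AlgHom.ext_of_adjoin_eq_top hK' fun e he => ?_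
    have h2 : aeval e f = 0 := (Polynomial.mem_rootSet.1 he).2
    rw [hf, map_sub, map_pow, aeval_X, aeval_C, sub_eq_zero] at h2
    exact pow_ell_fix hℓ hζ σ m e b h2
  ext z
  exact DFunLike.congr_fun h1 z

/-- good reduction of `X ^ (ℓ ^ (n + 1)) - b` -/
theorem sep_pow {K : Type} [Field K] [NumberField K] {ℓ : ℕ} [hp : Fact ℓ.Prime] (n : ℕ) {b : K}
    (hb : b ≠ 0) {v : HeightOneSpectrum (𝓞 K)} (hv : (ℓ : 𝓞 K) ∉ v.asIdeal)
    (hvb : v.valuation K b = 1) : SepAt v (X ^ (ℓ ^ (n + 1)) - C b : K[X]) := by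
  have hℓ0 : (ℓ : K) ≠ 0 := by exact_mod_cast hp.out.ne_zero
  have hvℓ : v.valuation K (ℓ : K) = 1 := by
    have h3 : (ℓ : K) = algebraMap (𝓞 K) K (ℓ : 𝓞 K) := by rw [map_natCast]
    rw [h3, v.valuation_of_algebraMap, v.intValuation_eq_one_iff]
    exact hv
  obtain ⟨c, hc⟩ : ∃ c : K, c = (((ℓ : K) ^ (n + 1)) * b)⁻¹ := ⟨_, rfl⟩
  have hcv : v.valuation K c = 1 := by
    rw [hc, map_inv₀, map_mul, map_pow, hvℓ, hvb, one_pow, one_mul, inv_one]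
  have hcb : c * (ℓ : K) ^ (n + 1) = b⁻¹ := by
    rw [hc]
    field_simp
  have hpos : 0 < ℓ ^ (n + 1) := pow_pos hp.out.pos _
  refine ⟨fun k => ?_, C (-b⁻¹), C c * X, fun k => ?_, fun k => ?_, ?_⟩
  · rw [coeff_sub]
    refine (v.valuation K).map_sub_le ?_ ?_
    · rw [coeff_X_pow]
      split_ifs
      · rw [map_one]
      · rw [map_zero]; exact zero_le'
    · rw [coeff_C]
      split_ifs
      · rw [hvb]
      · rw [map_zero]; exact zero_le'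
  · rw [coeff_C]
    split_ifs
    · rw [Valuation.map_neg, map_inv₀, hvb, inv_one]
    · rw [map_zero]; exact zero_le'
  · rw [coeff_C_mul, map_mul, hcv, one_mul, coeff_X]
    split_ifs
    · rw [map_one]
    · rw [map_zero]; exact zero_le'
  · rw [derivative_sub, derivative_X_pow, derivative_C, sub_zero]
    have h1 : (X : K[X]) * X ^ (ℓ ^ (n + 1) - 1) = X ^ (ℓ ^ (n + 1)) := by
      rw [← pow_succ']
      congr 1
      omega
    have h2 : C c * C (((ℓ ^ (n + 1) : ℕ) : K)) = (C b⁻¹ : K[X]) := by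
      rw [← C_mul, Nat.cast_pow, hcb]
    have h3 : C b⁻¹ * C b = (1 : K[X]) := by
      rw [← C_mul, inv_mul_cancel₀ hb, C_1]
    rw [C_neg]
    linear_combination (C c * C (((ℓ ^ (n + 1) : ℕ) : K))) * h1 + X ^ (ℓ ^ (n + 1)) * h2 + h3

section

variable {K : Type} [Field K] [NumberField K] {ℓ : ℕ}
  [hp : Fact ℓ.Prime] [hK : IsCyclotomicExtension {ℓ} ℚ K] {ζ : K} (hζ : IsPrimitiveRoot ζ ℓ)

include hK hζ in
/-- **the conditions at `ℓ`** -/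
theorem cond_reg (hcop : (classNumber K).Coprime ℓ) (hKL : KLem ℓ K)
    {p : ℕ} (hpp : p.Prime) (hpK : (Ideal.span {(p : 𝓞 K)}).IsPrime)
    (hpl : ¬ (ℓ : ℤ) ^ 2 ∣ (p : ℤ) ^ (ℓ - 1) - 1) (hne : p ≠ ℓ) (n : ℕ) {b : K} (hb : b ≠ 0)
    (hbv : ∀ v : HeightOneSpectrum (𝓞 K), (ℓ : 𝓞 K) ∉ v.asIdeal → (p : 𝓞 K) ∉ v.asIdeal →
      v.valuation K b = 1)
    {C' : Type} [Field C'] [Algebra (Kl hζ) C'] [Algebra K C'] [IsScalarTower K (Kl hζ) C']
    [IsAlgClosure (Kl hζ) C']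
    (K' : Type) [Field K'] [NumberField K'] [Algebra K K'] [Normal K K']
    (hadj : Algebra.adjoin K ((X ^ (ℓ ^ (n + 1)) - C b : K[X]).rootSet K') = ⊤)
    (E : Finset K') (hE : ∀ e ∈ E, aeval e (X ^ (ℓ ^ (n + 1)) - C b : K[X]) = 0)
    (i : K' →ₐ[K] C') :
    AllAt (Kl hζ) i ∧ LocAt ℓ (Kl hζ) i (GoodAt ℓ E (algebraMap K K' (-1))) := by
  haveI : CharZero (Kl hζ) := charZero_of_injective_algebraMap (algebraMap K (Kl hζ)).injective
  have hpos : 0 < ℓ ^ (n + 1) := pow_pos hp.out.pos _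
  refine tower_cond hζ (monic_X_pow_sub_C _ hpos.ne') (neg_ne_zero.2 one_ne_zero) ?_ hadj
    (fun σ => ⟨n + 1, gal_pow_ell hp.out.ne_zero hζ (n + 1) b rfl hadj σ⟩) E hE i
  refine locPow_reg hζ hcop hKL hpp hpK hpl hne fun v h1 h2 => ?_
  exact ⟨h1, ⟨1, by rw [Valuation.map_neg, map_one, one_pow]⟩, sep_pow n hb h1 (hbv v h1 h2)⟩

end

end Pool.Agent.K3h82.FT
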