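import Pool.Agent.K3h82.FT.Reg
import Pool.Agent.Y158.FQ.Main3
import Pool.Agent.Y678.FQ.CL

/-!
# Sections for the curves `x ^ (ℓ ^ m) + y ^ ℓ = a ^ ℓ` over `ℚ`
-/

set_option autoImplicit false
set_option linter.all false

open Polynomial FF Pool.Agent.Y157.PS Pool.Agent.TH954 IsDedekindDomain NumberField

namespace Pool.Agent.K3h82.FT

open Pool.Agent.K3h82.BT Pool.Agent.K3h82.OP Pool.Agent.K3h82.OT Pool.Agent.K3h82.PC
open Pool.Agent.K3h82.FQ4
open Pool.Agent.Y158.GR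
open Pool.Agent.Y158.FQ (geomPro_base Qc toC given_up)
open Pool.Agent.Y158.KL (lam Kl KLem)

attribute [-instance] DivisionRing.toRatAlgebra SubfieldClass.instSMulRat
attribute [local instance 1] DivisionRing.toRatAlgebra

/-- an element of `K'` whose image is fixed by the automorphisms over `L` is in `K` -/
theorem down_rat {K K' L C' : Type} [Field K] [CharZero K] [Field K'] [Algebra K K']
    [FiniteDimensional K K'] [Normal K K'] [Field L] [Field C'] [Algebra L C'] [Algebra K C']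
    {i : K' →ₐ[K] C'} (hall : AllAt L i) {e : K'} (he : ∀ τ : C' ≃ₐ[L] C', τ (i e) = i e) :
    ∃ r : K, algebraMap K K' r = e := by
  haveI : IsGalois K K' := ⟨⟩
  have h3 : e ∈ (⊥ : IntermediateField K K') := by
    rw [IsGalois.mem_bot_iff_fixed]
    intro σ
    obtain ⟨τ, hτ⟩ := hall σ
    have h5 : i (σ e) = i e := by rw [hτ, he]
    exact i.toRingHom.injective h5
  exact IntermediateField.mem_bot.1 h3

/-- rational roots of integers -/
theorem int_root {q : ℚ} {m : ℕ} (hm : m ≠ 0) {a : ℤ} (h : q ^ m = a) :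
    ∃ r : ℤ, (r : ℚ) = q ∧ r ^ m = a := by
  have h1 : (q ^ m).den = 1 := by rw [h]; exact Rat.den_intCast a
  rw [Rat.den_pow] at h1
  have h2 : q.den = 1 := (Nat.pow_eq_one.1 h1).resolve_right hm
  have h3 : (q.num : ℚ) = q := Rat.coe_int_num_of_den_eq_one h2
  refine ⟨q.num, h3, ?_⟩
  have h4 : ((q.num ^ m : ℤ) : ℚ) = (a : ℚ) := by
    push_cast
    rw [h3, h]
  exact_mod_cast h4

section

variable {K : Type} [Field K] [NumberField K] {ℓ : ℕ}
  [hp : Fact ℓ.Prime] [hK : IsCyclotomicExtension {ℓ} ℚ K] {ζ : K} (hζ : IsPrimitiveRoot ζ ℓ)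
  {F Ω B : Type} [Field F] [Field Ω] [Field B] [Algebra ℚ F] [Algebra F Ω]
  [Algebra ℚ Ω] [Algebra ℚ B] [IsScalarTower ℚ F Ω] [IsAlgClosed Ω] [Algebra.IsAlgebraic F Ω]
  [IsAlgClosure ℚ B]
  {C : Type} [Field C] [Algebra (Kl hζ) C] [Algebra ℚ C] [IsAlgClosure (Kl hζ) C]

include hK in
/-- the automorphisms of `ℚ(ζ_ℓ)` come from `ℚ_ℓ` -/
theorem allAt_cyc (i : K →ₐ[ℚ] C) (hi : ∀ c, i c = toC hζ C c) : AllAt (Qc (lam hζ)) i := by
  haveI : NeZero ℓ := ⟨hp.out.ne_zero⟩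
  intro σ
  have hσζ : IsPrimitiveRoot (σ ζ) ℓ := hζ.map_of_injective σ.injective
  obtain ⟨r, hr, hr'⟩ := hζ.eq_pow_of_pow_eq_one hσζ.pow_eq_one
  have hrc : Nat.Coprime r ℓ := by
    rw [← hr'] at hσζ
    exact (hζ.pow_iff_coprime hp.out.pos r).1 hσζ
  obtain ⟨τ, hτ⟩ := Pool.Agent.Y678.FQ.t_CL K ℓ ζ hζ C r hrc
  refine ⟨τ, fun z => ?_⟩
  let τ' : C →ₐ[ℚ] C := { (τ : C →+* C) with
    commutes' := fun c => by
      have h1 : ((τ : C →+* C).comp (algebraMap ℚ C)) = algebraMap ℚ C := Subsingleton.elim _ _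
      exact RingHom.congr_fun h1 c }
  have hτ' : ∀ z, τ' z = τ z := fun z => rfl
  have h1 : i.comp (σ : K →ₐ[ℚ] K) = τ'.comp i := by
    refine (hζ.powerBasis ℚ).algHom_ext ?_
    rw [hζ.powerBasis_gen ℚ]
    change i (σ ζ) = τ' (i ζ)
    rw [hτ', ← hr', map_pow, hi]
    exact hτ.symm
  exact DFunLike.congr_fun h1 z


include hK hζ in
/-- **the theorem over `ℚ`** -/
theorem ftQ (hodd : Odd ℓ) (hcop : (classNumber K).Coprime ℓ) (hKL : KLem ℓ K)
    {p : ℕ} (hpp : p.Prime) (hpK : (Ideal.span {(p : 𝓞 K)}).IsPrime)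
    (hpl : ¬ (ℓ : ℤ) ^ 2 ∣ (p : ℤ) ^ (ℓ - 1) - 1) (hne : p ≠ ℓ) {n k : ℕ} {a : ℤ}
    (hap : a ∣ ((ℓ : ℤ) * p) ^ k)
    (N : IntermediateField F Ω) (s : GalSection ℚ F N B) (x y : N)
    (hxs : ∀ g, s.s g x = x) (hys : ∀ g, s.s g y = y) (hx : Transcendental ℚ (x : Ω))
    (hΩ : Algebra.IsAlgebraic (IntermediateField.adjoin ℚ {(x : Ω)}) Ω)
    (hxy : x ^ (ℓ ^ (n + 1)) + y ^ ℓ = (a : N) ^ ℓ)
    (hN : ∀ z ∈ geomPro ℓ ℚ (IntermediateField.adjoin ℚ {(x : Ω), (y : Ω)}) Ω, z ∈ N)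
    (pl : Plc ℚ N C) (hpv : s.GivenBy (Qc (lam hζ)) pl) :
    ((∃ r : ℤ, r ^ (ℓ ^ n) = a ∧ pl.val x (r : C) ∧ pl.val y 0) ∨
      (pl.val x 0 ∧ pl.val y (a : C)) ∨
      (pl.val x⁻¹ 0 ∧ pl.val (y * x⁻¹ ^ (ℓ ^ n)) (-1))) ∧
    ∀ (g : B ≃ₐ[ℚ] B) (z : N),
      (z : Ω) ∈ geomPro ℓ ℚ (IntermediateField.adjoin ℚ {(x : Ω), (y : Ω)}) Ω →
      (s.s g z ∈ pl.W ↔ z ∈ pl.W) := by
  haveI hBa : Algebra.IsAlgebraic ℚ B := IsAlgClosure.isAlgebraic
  haveI hBc : IsAlgClosed B := IsAlgClosure.isAlgClosed ℚ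
  haveI hBn : Normal ℚ B := IsAlgClosure.normal ℚ B
  haveI hCac : IsAlgClosed C := IsAlgClosure.isAlgClosed (Kl hζ)
  haveI : IsScalarTower ℚ (Kl hζ) C := IsScalarTower.of_algebraMap_eq' (Subsingleton.elim _ _)
  haveI : Algebra.IsAlgebraic ℚ K := Algebra.IsAlgebraic.of_finite ℚ K
  haveI : NeZero ℓ := ⟨hp.out.ne_zero⟩
  haveI : IsGalois ℚ K := IsCyclotomicExtension.isGalois {ℓ} ℚ K
  have hℓ0 : ℓ ≠ 0 := hp.out.ne_zero
  have hpos : ℓ ^ n ≠ 0 := pow_ne_zero _ hℓ0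
  have hpK' : s.GivenBy (Kl hζ) pl := given_up (L := Qc (lam hζ)) hpv
  -- the embedding of `K` in `B`
  obtain ⟨eB, heB⟩ := exists_eB (K := ℚ) (Ω := C) (pl.iot s.j)
  have hmemC : ∀ c : K, toC hζ C c ∈ algebraicClosure ℚ C := by
    intro c
    rw [mem_algebraicClosure_iff]
    obtain ⟨q, hq, hqc⟩ := Algebra.IsAlgebraic.isAlgebraic (R := ℚ) c
    refine ⟨q, hq, ?_⟩
    rw [aeval_def] at hqc ⊢
    have h1 : algebraMap ℚ C = (toC hζ C).comp (algebraMap ℚ K) := Subsingleton.elim _ _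
    rw [h1, ← hom_eval₂, hqc, map_zero]
  let f : K →+* B := (eB.symm : algebraicClosure ℚ C →+* B).comp
    ((toC hζ C).codRestrict (algebraicClosure ℚ C) hmemC)
  have hf : ∀ c, pl.iot s.j (f c) = toC hζ C c := by
    intro c
    rw [← heB]
    change ((eB (eB.symm ((toC hζ C).codRestrict (algebraicClosure ℚ C) hmemC c)) :
      algebraicClosure ℚ C) : C) = _
    rw [eB.apply_symm_apply]
    rfl
  letI iKB : Algebra K B := f.toAlgebra
  haveI : IsScalarTower ℚ K B := IsScalarTower.of_algebraMap_eq' (Subsingleton.elim _ _)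
  letI iKΩ : Algebra K Ω := (((algebraMap N Ω).comp (s.j : B →+* N)).comp f).toAlgebra
  haveI : IsScalarTower ℚ K Ω := IsScalarTower.of_algebraMap_eq' (Subsingleton.elim _ _)
  letI iKC : Algebra K C := (toC hζ C).toAlgebra
  haveI : IsScalarTower ℚ K C := IsScalarTower.of_algebraMap_eq' (Subsingleton.elim _ _)
  haveI : IsScalarTower K (Kl hζ) C := IsScalarTower.of_algebraMap_eq fun _ => rfl
  haveI : Algebra.IsAlgebraic K B := Algebra.IsAlgebraic.tower_top (K := ℚ) K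
  haveI : IsAlgClosure K B := ⟨inferInstance, inferInstance⟩
  have hgeo : ∀ z : Ω, z ∈ geomPro ℓ K (IntermediateField.adjoin K {(x : Ω), (y : Ω)}) Ω ↔
      z ∈ geomPro ℓ ℚ (IntermediateField.adjoin ℚ {(x : Ω), (y : Ω)}) Ω :=
    geomPro_base (k := ℚ) (K := K) (F' := Ω) (X := (x : Ω)) (Y := (y : Ω))
        (u := (x : Ω)) (w := (y : Ω)) (c := 1) (c' := 1)
        (one_mem _) (one_mem _) one_ne_zero one_ne_zero (by rw [one_mul]; rfl)
        (by rw [one_mul]; rfl)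
  have hx' : Transcendental K (x : Ω) := fun h => hx (h.restrictScalars ℚ)
  have hΩ' : Algebra.IsAlgebraic (IntermediateField.adjoin K {(x : Ω)}) Ω := by
    constructor
    intro z
    have h1 := hΩ.isAlgebraic z
    have hle : ∀ w ∈ IntermediateField.adjoin ℚ {(x : Ω)},
        w ∈ IntermediateField.adjoin K {(x : Ω)} := by
      refine adjoin_le_sub (K := ℚ) (T := (IntermediateField.adjoin K {(x : Ω)}).toSubfield)
        (fun c => ?_) (fun u hu => IntermediateField.subset_adjoin K _ hu)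
      rw [IsScalarTower.algebraMap_apply ℚ K Ω]
      exact (IntermediateField.adjoin K {(x : Ω)}).algebraMap_mem _
    let φ : IntermediateField.adjoin ℚ {(x : Ω)} →+* IntermediateField.adjoin K {(x : Ω)} :=
      { toFun := fun w => ⟨w.1, hle _ w.2⟩
        map_one' := rfl
        map_mul' := fun _ _ => rfl
        map_zero' := rfl
        map_add' := fun _ _ => rfl }
    obtain ⟨q, hq0, hq⟩ := h1
    refine ⟨q.map φ, (Polynomial.map_ne_zero_iff φ.injective).2 hq0, ?_⟩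
    rw [Polynomial.aeval_def, Polynomial.eval₂_map]
    exact hq
  obtain ⟨F', i1, i2, i3, i4, i5, N', e, s', -, he, hjs, -, hs, -, hNN', hP⟩ :=
    exists_base (K := ℚ) (K' := K) (C := C) (Kl hζ) s s (fun c => rfl) (fun c => rfl)
  obtain ⟨p', hpv', hval, hmem⟩ := hP pl hpK' (fun c => by
    have h1 := iot_val s pl (f c)
    rw [hf] at h1
    exact h1)
  have ha0 : a ≠ 0 := by
    rintro rfl
    have h1 := zero_dvd_iff.1 hap
    have h2 : (ℓ : ℤ) ≠ 0 := by exact_mod_cast hℓ0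
    have h3 : (p : ℤ) ≠ 0 := by exact_mod_cast hpp.ne_zero
    exact pow_ne_zero k (mul_ne_zero h2 h3) h1
  have haK : (a : K) ≠ 0 := by exact_mod_cast ha0
  have hav : ∀ v : HeightOneSpectrum (𝓞 K), (ℓ : 𝓞 K) ∉ v.asIdeal → (p : 𝓞 K) ∉ v.asIdeal →
      v.valuation K (a : K) = 1 := by
    intro v h2 hpv
    have h3 : (a : K) = algebraMap (𝓞 K) K (a : 𝓞 K) := by rw [map_intCast]
    rw [h3, v.valuation_of_algebraMap, v.intValuation_eq_one_iff]
    intro h4
    obtain ⟨b, hb⟩ := hap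
    have h5 : ((((ℓ : ℤ) * p) ^ k : ℤ) : 𝓞 K) ∈ v.asIdeal := by
      rw [hb]
      push_cast
      exact Ideal.mul_mem_right _ _ h4
    push_cast at h5
    rcases v.isPrime.mem_or_mem (v.isPrime.mem_of_pow_mem _ h5) with h6 | h6
    · exact h2 h6
    · exact hpv h6
  obtain ⟨hpt, hgK⟩ := ftK hζ hodd hcop hKL hpp hpK hpl hne (n := n) haK hav N' s' (e x) (e y)
    (fun g => by rw [hs, hxs]) (fun g => by rw [hs, hys]) (by rw [he]; exact hx')
    (by rw [he]; exact hΩ') (by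
      rw [← map_pow, ← map_pow, ← map_add, hxy, map_pow, map_intCast, map_intCast])
    (fun z hz => (hNN' z).2 (hN z ((hgeo z).1 (by rw [he, he] at hz; exact hz)))) p' hpv'
  have hgK' : ∀ (γ : B ≃ₐ[K] B) (z : N),
      (z : Ω) ∈ geomPro ℓ ℚ (IntermediateField.adjoin ℚ {(x : Ω), (y : Ω)}) Ω →
      (s.s (γ.restrictScalars ℚ) z ∈ pl.W ↔ z ∈ pl.W) := by
    intro γ z hz
    have h1 := hgK γ (e z) (by rw [he, he, he]; exact (hgeo _).2 hz)
    rw [hs, hmem, hmem] at h1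
    exact h1
  let i : K →ₐ[ℚ] C := { toC hζ C with
    commutes' := fun c => by
      have h1 : ((toC hζ C).comp (algebraMap ℚ K)) = algebraMap ℚ C := Subsingleton.elim _ _
      exact RingHom.congr_fun h1 c }
  have hi : ∀ c, i c = toC hζ C c := fun c => rfl
  have hall : AllAt (Qc (lam hζ)) i := allAt_cyc hζ i hi
  letI iQ : Algebra ℚ (Qc (lam hζ)) :=
    ((algebraMap ℚ ((lam hζ).adicCompletion K)).codRestrict (Qc (lam hζ))
      (fun q => Subfield.le_topologicalClosure _ ⟨q, rfl⟩)).toAlgebra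
  haveI hQC : @IsScalarTower ℚ (Qc (lam hζ)) C iQ.toSMul Algebra.toSMul Algebra.toSMul :=
    IsScalarTower.of_algebraMap_eq' (Subsingleton.elim _ _)
  refine ⟨?_, fun g z hz => ?_⟩
  · have hratQ : ∀ z : N, (∀ g, s.s g z = z) → ∀ r : K, pl.val z (algebraMap K C r) →
        ∃ q : ℚ, algebraMap ℚ K q = r := by
      intro z hz r hr
      refine down_rat hall (e := r) fun τ => ?_
      obtain ⟨h, hh⟩ := exists_decL (L := Qc (lam hζ)) (pl.iot s.j) τ
      have h2 := given_val hpv hh hr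
      rw [hz] at h2
      exact h2.unique hr
    have hinj : Function.Injective (algebraMap ℚ K) := (algebraMap ℚ K).injective
    rcases hpt with ⟨r, h1, h2, h3⟩ | ⟨r, h1, h2, h3⟩ | ⟨r, h1, h2, h3⟩
    · rw [hval] at h2 h3
      obtain ⟨q, rfl⟩ := hratQ x hxs r h2
      have h4 : q ^ (ℓ ^ n) = (a : ℚ) := by
        apply hodd.strictMono_pow.injective
        change (q ^ (ℓ ^ n)) ^ ℓ = (a : ℚ) ^ ℓ
        apply hinj
        rw [← pow_mul, ← pow_succ, map_pow, map_pow, map_intCast]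
        exact h1
      obtain ⟨r₀, rfl, h6⟩ := int_root hpos h4
      refine Or.inl ⟨r₀, h6, ?_, h3⟩
      rwa [map_intCast, map_intCast] at h2
    · rw [hval] at h2 h3
      obtain ⟨q, rfl⟩ := hratQ y hys r h3
      have h4 : q = (a : ℚ) := by
        apply hodd.strictMono_pow.injective
        change q ^ ℓ = (a : ℚ) ^ ℓ
        apply hinj
        rw [map_pow, map_pow, map_intCast]
        exact h1
      rw [h4, map_intCast, map_intCast] at h3
      exact Or.inr (Or.inl ⟨h2, h3⟩)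
    · rw [← map_inv₀, hval] at h2
      rw [← map_inv₀, ← map_pow, ← map_mul, hval] at h3
      obtain ⟨q, rfl⟩ := hratQ _ (fun g => by
        rw [map_mul, map_pow, map_inv₀, hxs, hys]) r h3
      have h4 : q = -1 := by
        apply hodd.strictMono_pow.injective
        change q ^ ℓ = (-1) ^ ℓ
        apply hinj
        rw [map_pow, hodd.neg_one_pow, map_neg, map_one]
        exact h1
      rw [h4, map_neg, map_one, map_neg, map_one] at h3
      exact Or.inr (Or.inr ⟨h2, h3⟩)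
  · obtain ⟨γ, δ, hδ, rfl⟩ := split_dec (K := ℚ) (K' := K) (L := Qc (lam hζ)) (pl.iot s.j) i
      (fun c => by rw [hi]; exact (hf c).symm) hall g
    have h1 : s.s (γ.restrictScalars ℚ * δ) z = s.s (γ.restrictScalars ℚ) (s.s δ z) := by
      rw [map_mul]
      rfl
    rw [h1, hgK' γ _ (geo_stab (K := ℚ) (s.s δ) (hxs δ) (hys δ) z hz)]
    exact given_mem hpv hδ z

end

end Pool.Agent.K3h82.FT
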