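import Pool.Agent.K3h82.FT.GReg
import Pool.Agent.K3h82.FT.Rat

/-!
# Sections for the curves `g(x) ^ ℓ + y ^ ℓ = a ^ ℓ` over `ℚ`
-/

set_option autoImplicit false
set_option linter.all false

open Polynomial FF Pool.Agent.Y157.PS Pool.Agent.TH954 IsDedekindDomain NumberField

namespace Pool.Agent.K3h82.FT

open Pool.Agent.K3h82.BT Pool.Agent.K3h82.OP Pool.Agent.K3h82.OT Pool.Agent.K3h82.PC
open Pool.Agent.K3h82.FQ4
open Pool.Agent.Y158.GR
open Pool.Agent.Y158.FQ (geomPro_base Qc toC given_up)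
open Pool.Agent.Y158.KL (lam Kl KLem)

attribute [-instance] DivisionRing.toRatAlgebra SubfieldClass.instSMulRat
attribute [local instance 1] DivisionRing.toRatAlgebra

section

variable {K : Type} [Field K] [NumberField K] {ℓ : ℕ}
  [hp : Fact ℓ.Prime] [hK : IsCyclotomicExtension {ℓ} ℚ K] {ζ : K} (hζ : IsPrimitiveRoot ζ ℓ)
  {F Ω B : Type} [Field F] [Field Ω] [Field B] [Algebra ℚ F] [Algebra F Ω]
  [Algebra ℚ Ω] [Algebra ℚ B] [IsScalarTower ℚ F Ω] [IsAlgClosed Ω] [Algebra.IsAlgebraic F Ω]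
  [IsAlgClosure ℚ B]
  {C : Type} [Field C] [Algebra (Kl hζ) C] [Algebra ℚ C] [IsAlgClosure (Kl hζ) C]

include hK hζ in
/-- **the theorem over `ℚ`** -/
theorem gQ (hodd : Odd ℓ) (hcop : (classNumber K).Coprime ℓ) (hKL : KLem ℓ K)
    {p : ℕ} (hpp : p.Prime) (hpK : (Ideal.span {(p : 𝓞 K)}).IsPrime)
    (hpl : ¬ (ℓ : ℤ) ^ 2 ∣ (p : ℤ) ^ (ℓ - 1) - 1) (hne : p ≠ ℓ) {g : ℚ[X]} (hg : g.Monic)
    (hD : g.natDegree ≠ 0) {a : ℚ} (ha : a ≠ 0)
    (hsf : ((g.map (algebraMap ℚ K)) ^ ℓ - Polynomial.C (algebraMap ℚ K a ^ ℓ)).Separable)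
    (hroot : ∀ c : Kl hζ, aeval c (g.map (algebraMap ℚ K)) = 0 →
      ∃ r : K, algebraMap K (Kl hζ) r = c)
    (hG : ∀ (K' : Type) [Field K'] [Algebra K K'],
      Algebra.adjoin K (((g.map (algebraMap ℚ K)) ^ ℓ - Polynomial.C (algebraMap ℚ K a ^ ℓ)).rootSet K') =
        ⊤ → (((g.map (algebraMap ℚ K)) ^ ℓ - Polynomial.C (algebraMap ℚ K a ^ ℓ)).map
          (algebraMap K K')).Splits →
      ∀ σ : K' ≃ₐ[K] K', ∃ n : ℕ, σ ^ (ℓ ^ n) = 1)
    (hgood : ∀ v : HeightOneSpectrum (𝓞 K), (ℓ : 𝓞 K) ∉ v.asIdeal → (p : 𝓞 K) ∉ v.asIdeal →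
      SepAt v ((g.map (algebraMap ℚ K)) ^ ℓ - Polynomial.C (algebraMap ℚ K a ^ ℓ)))
    (N : IntermediateField F Ω) (s : GalSection ℚ F N B) (x y : N)
    (hxs : ∀ g, s.s g x = x) (hys : ∀ g, s.s g y = y) (hx : Transcendental ℚ (x : Ω))
    (hΩ : Algebra.IsAlgebraic (IntermediateField.adjoin ℚ {(x : Ω)}) Ω)
    (hxy : aeval (x : Ω) g ^ ℓ + (y : Ω) ^ ℓ = algebraMap ℚ Ω a ^ ℓ)
    (hN : ∀ z ∈ geomPro ℓ ℚ (IntermediateField.adjoin ℚ {(x : Ω), (y : Ω)}) Ω, z ∈ N)
    (pl : Plc ℚ N C) (hpv : s.GivenBy (Qc (lam hζ)) pl) :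
    ((∃ r : ℚ, g.eval r = a ∧ pl.val x (algebraMap ℚ C r) ∧ pl.val y 0) ∨
      (∃ r : ℚ, g.eval r = 0 ∧ pl.val x (algebraMap ℚ C r) ∧ pl.val y (algebraMap ℚ C a)) ∨
      (pl.val x⁻¹ 0 ∧ pl.val (y * x⁻¹ ^ g.natDegree) (-1))) ∧
    ∀ (g : B ≃ₐ[ℚ] B) (z : N),
      (z : Ω) ∈ geomPro ℓ ℚ (IntermediateField.adjoin ℚ {(x : Ω), (y : Ω)}) Ω →
      (s.s g z ∈ pl.W ↔ z ∈ pl.W) := by
  haveI hBa : Algebra.IsAlgebraic ℚ B := IsAlgClosure.isAlgebraic
  haveI hBc : IsAlgClosed B := IsAlgClosure.isAlgClosed ℚ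
  haveI hBn : Normal ℚ B := IsAlgClosure.normal ℚ B
  haveI hCac : IsAlgClosed C := IsAlgClosure.isAlgClosed (Kl hζ)
  haveI : IsScalarTower ℚ (Kl hζ) C := IsScalarTower.of_algebraMap_eq' (Subsingleton.elim _ _)
  haveI : Algebra.IsAlgebraic ℚ K := Algebra.IsAlgebraic.of_finite ℚ K
  haveI : NeZero ℓ := ⟨hp.out.ne_zero⟩
  haveI : IsGalois ℚ K := IsCyclotomicExtension.isGalois {ℓ} ℚ K
  have hℓ0 : ℓ ≠ 0 := hp.out.ne_zero
  have hpK' : s.GivenBy (Kl hζ) pl := given_up (L := Qc (lam hζ)) hpv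
  -- the embedding of `K` in `B`
  obtain ⟨eB, heB⟩ := exists_eB (K := ℚ) (Ω := C) (pl.iot s.j)
  have hmemC : ∀ c : K, toC hζ C c ∈ algebraicClosure ℚ C := by
    intro c
    rw [mem_algebraicClosure_iff]
    obtain ⟨q, hq, hqc⟩ := Algebra.IsAlgebraic.isAlgebraic (R := ℚ) c
    refine ⟨q, hq, ?_⟩
    rw [aeval_def] at hqc ⊢
    have h1 : algebraMap ℚ C = (toC hζ C).comp (algebraMap ℚ K) := Subsingleton.elim _ _
    rw [h1, ← hom_eval₂, hqc, map_zero]
  let f : K →+* B := (eB.symm : algebraicClosure ℚ C →+* B).comp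
    ((toC hζ C).codRestrict (algebraicClosure ℚ C) hmemC)
  have hf : ∀ c, pl.iot s.j (f c) = toC hζ C c := by
    intro c
    rw [← heB]
    change ((eB (eB.symm ((toC hζ C).codRestrict (algebraicClosure ℚ C) hmemC c)) :
      algebraicClosure ℚ C) : C) = _
    rw [eB.apply_symm_apply]
    rfl
  letI iKB : Algebra K B := f.toAlgebra
  haveI : IsScalarTower ℚ K B := IsScalarTower.of_algebraMap_eq' (Subsingleton.elim _ _)
  letI iKΩ : Algebra K Ω := (((algebraMap N Ω).comp (s.j : B →+* N)).comp f).toAlgebra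
  haveI : IsScalarTower ℚ K Ω := IsScalarTower.of_algebraMap_eq' (Subsingleton.elim _ _)
  letI iKC : Algebra K C := (toC hζ C).toAlgebra
  haveI : IsScalarTower ℚ K C := IsScalarTower.of_algebraMap_eq' (Subsingleton.elim _ _)
  haveI : IsScalarTower K (Kl hζ) C := IsScalarTower.of_algebraMap_eq fun _ => rfl
  haveI : Algebra.IsAlgebraic K B := Algebra.IsAlgebraic.tower_top (K := ℚ) K
  haveI : IsAlgClosure K B := ⟨inferInstance, inferInstance⟩
  have hgeo : ∀ z : Ω, z ∈ geomPro ℓ K (IntermediateField.adjoin K {(x : Ω), (y : Ω)}) Ω ↔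
      z ∈ geomPro ℓ ℚ (IntermediateField.adjoin ℚ {(x : Ω), (y : Ω)}) Ω :=
    geomPro_base (k := ℚ) (K := K) (F' := Ω) (X := (x : Ω)) (Y := (y : Ω))
        (u := (x : Ω)) (w := (y : Ω)) (c := 1) (c' := 1)
        (one_mem _) (one_mem _) one_ne_zero one_ne_zero (by rw [one_mul]; rfl)
        (by rw [one_mul]; rfl)
  have hx' : Transcendental K (x : Ω) := fun h => hx (h.restrictScalars ℚ)
  have hΩ' : Algebra.IsAlgebraic (IntermediateField.adjoin K {(x : Ω)}) Ω := by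
    constructor
    intro z
    have h1 := hΩ.isAlgebraic z
    have hle : ∀ w ∈ IntermediateField.adjoin ℚ {(x : Ω)},
        w ∈ IntermediateField.adjoin K {(x : Ω)} := by
      refine adjoin_le_sub (K := ℚ) (T := (IntermediateField.adjoin K {(x : Ω)}).toSubfield)
        (fun c => ?_) (fun u hu => IntermediateField.subset_adjoin K _ hu)
      rw [IsScalarTower.algebraMap_apply ℚ K Ω]
      exact (IntermediateField.adjoin K {(x : Ω)}).algebraMap_mem _
    let φ : IntermediateField.adjoin ℚ {(x : Ω)} →+* IntermediateField.adjoin K {(x : Ω)} :=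
      { toFun := fun w => ⟨w.1, hle _ w.2⟩
        map_one' := rfl
        map_mul' := fun _ _ => rfl
        map_zero' := rfl
        map_add' := fun _ _ => rfl }
    obtain ⟨q, hq0, hq⟩ := h1
    refine ⟨q.map φ, (Polynomial.map_ne_zero_iff φ.injective).2 hq0, ?_⟩
    rw [Polynomial.aeval_def, Polynomial.eval₂_map]
    exact hq
  obtain ⟨F', i1, i2, i3, i4, i5, N', e, s', -, he, hjs, -, hs, -, hNN', hP⟩ :=
    exists_base (K := ℚ) (K' := K) (C := C) (Kl hζ) s s (fun c => rfl) (fun c => rfl)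
  obtain ⟨p', hpv', hval, hmem⟩ := hP pl hpK' (fun c => by
    have h1 := iot_val s pl (f c)
    rw [hf] at h1
    exact h1)
  have hdeg : (g.map (algebraMap ℚ K)).natDegree = g.natDegree := natDegree_map _
  obtain ⟨hpt, hgK⟩ := gK hζ hodd hcop hKL hpp hpK hpl hne (g := g.map (algebraMap ℚ K))
    (a := algebraMap ℚ K a) (hg.map _) (by rwa [hdeg]) ((_root_.map_ne_zero _).2 ha) hsf hroot hG
    hgood N' s' (e x) (e y)
    (fun g => by rw [hs, hxs]) (fun g => by rw [hs, hys]) (by rw [he]; exact hx')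
    (by rw [he]; exact hΩ') (by
      haveI : IsScalarTower K N' Ω := IsScalarTower.of_algebraMap_eq fun _ => rfl
      apply (algebraMap N' Ω).injective
      rw [map_add, map_pow, map_pow, map_pow, ← aeval_algebraMap_apply, aeval_map_algebraMap]
      have h1 : algebraMap N' Ω (e x) = (x : Ω) := he x
      have h2 : algebraMap N' Ω (e y) = (y : Ω) := he y
      have h3 : algebraMap N' Ω (algebraMap K N' (algebraMap ℚ K a)) = algebraMap ℚ Ω a := by
        rw [← IsScalarTower.algebraMap_apply K N' Ω, ← IsScalarTower.algebraMap_apply ℚ K Ω]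
      rw [h1, h2, h3]
      exact hxy)
    (fun z hz => (hNN' z).2 (hN z ((hgeo z).1 (by rw [he, he] at hz; exact hz)))) p' hpv'
  have hgK' : ∀ (γ : B ≃ₐ[K] B) (z : N),
      (z : Ω) ∈ geomPro ℓ ℚ (IntermediateField.adjoin ℚ {(x : Ω), (y : Ω)}) Ω →
      (s.s (γ.restrictScalars ℚ) z ∈ pl.W ↔ z ∈ pl.W) := by
    intro γ z hz
    have h1 := hgK γ (e z) (by rw [he, he, he]; exact (hgeo _).2 hz)
    rw [hs, hmem, hmem] at h1
    exact h1
  let i : K →ₐ[ℚ] C := { toC hζ C with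
    commutes' := fun c => by
      have h1 : ((toC hζ C).comp (algebraMap ℚ K)) = algebraMap ℚ C := Subsingleton.elim _ _
      exact RingHom.congr_fun h1 c }
  have hi : ∀ c, i c = toC hζ C c := fun c => rfl
  have hall : AllAt (Qc (lam hζ)) i := allAt_cyc hζ i hi
  letI iQ : Algebra ℚ (Qc (lam hζ)) :=
    ((algebraMap ℚ ((lam hζ).adicCompletion K)).codRestrict (Qc (lam hζ))
      (fun q => Subfield.le_topologicalClosure _ ⟨q, rfl⟩)).toAlgebra
  haveI hQC : @IsScalarTower ℚ (Qc (lam hζ)) C iQ.toSMul Algebra.toSMul Algebra.toSMul :=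
    IsScalarTower.of_algebraMap_eq' (Subsingleton.elim _ _)
  refine ⟨?_, fun σ z hz => ?_⟩
  · have hratQ : ∀ z : N, (∀ g, s.s g z = z) → ∀ r : K, pl.val z (algebraMap K C r) →
        ∃ q : ℚ, algebraMap ℚ K q = r := by
      intro z hz r hr
      refine down_rat hall (e := r) fun τ => ?_
      obtain ⟨h, hh⟩ := exists_decL (L := Qc (lam hζ)) (pl.iot s.j) τ
      have h2 := given_val hpv hh hr
      rw [hz] at h2
      exact h2.unique hr
    have hinj : Function.Injective (algebraMap ℚ K) := (algebraMap ℚ K).injective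
    have hev : ∀ q : ℚ, (g.map (algebraMap ℚ K)).eval (algebraMap ℚ K q) =
        algebraMap ℚ K (g.eval q) := by
      intro q
      rw [eval_map_algebraMap, aeval_algebraMap_apply_eq_algebraMap_eval]
    have hQC' : ∀ q : ℚ, algebraMap K C (algebraMap ℚ K q) = algebraMap ℚ C q := fun q =>
      (IsScalarTower.algebraMap_apply ℚ K C q).symm
    rcases hpt with ⟨r, h1, h2, h3⟩ | ⟨r, t, h1, h1', h2, h3⟩ | ⟨r, h1, h2, h3⟩
    · rw [hval] at h2 h3
      obtain ⟨q, rfl⟩ := hratQ x hxs r h2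
      have h4 : g.eval q = a := by
        apply hodd.strictMono_pow.injective
        change (g.eval q) ^ ℓ = a ^ ℓ
        apply hinj
        rw [map_pow, map_pow, ← hev]
        exact h1
      rw [hQC'] at h2
      exact Or.inl ⟨q, h4, h2, h3⟩
    · rw [hval] at h2 h3
      obtain ⟨q, rfl⟩ := hratQ x hxs r h2
      obtain ⟨q', rfl⟩ := hratQ y hys t h3
      have h4 : q' = a := by
        apply hodd.strictMono_pow.injective
        change q' ^ ℓ = a ^ ℓ
        apply hinj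
        rw [map_pow, map_pow]
        exact h1'
      have h5 : g.eval q = 0 := by
        apply hinj
        rw [← hev, h1, map_zero]
      rw [hQC'] at h2 h3
      rw [h4] at h3
      exact Or.inr (Or.inl ⟨q, h5, h2, h3⟩)
    · rw [← map_inv₀, hval] at h2
      rw [← map_inv₀, ← map_pow, ← map_mul, hval, hdeg] at h3
      obtain ⟨q, rfl⟩ := hratQ _ (fun g => by
        rw [map_mul, map_pow, map_inv₀, hxs, hys]) r h3
      have h4 : q = -1 := by
        apply hodd.strictMono_pow.injective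
        change q ^ ℓ = (-1) ^ ℓ
        apply hinj
        rw [map_pow, hodd.neg_one_pow, map_neg, map_one]
        exact h1
      rw [h4, map_neg, map_one, map_neg, map_one] at h3
      exact Or.inr (Or.inr ⟨h2, h3⟩)
  · obtain ⟨γ, δ, hδ, rfl⟩ := split_dec (K := ℚ) (K' := K) (L := Qc (lam hζ)) (pl.iot s.j) i
      (fun c => by rw [hi]; exact (hf c).symm) hall σ
    have h1 : s.s (γ.restrictScalars ℚ * δ) z = s.s (γ.restrictScalars ℚ) (s.s δ z) := by
      rw [map_mul]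
      rfl
    rw [h1, hgK' γ _ (geo_stab (K := ℚ) (s.s δ) (hxs δ) (hys δ) z hz)]
    exact given_mem hpv hδ z

end

end Pool.Agent.K3h82.FT
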