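import Pool.Agent.K3h82.FT.Val

/-!
# Sections for the curves `x ^ (ℓ ^ m) + y ^ ℓ = a ^ ℓ` over `ℚ(ζ_ℓ)` (2)
-/

set_option autoImplicit false
set_option linter.all false

open Polynomial FF Pool.Agent.Y157.PS Pool.Agent.TH954 IsDedekindDomain NumberField

namespace Pool.Agent.K3h82.FT

open Pool.Agent.K3h82.BT Pool.Agent.K3h82.OP Pool.Agent.K3h82.OT Pool.Agent.K3h82.PC
open Pool.Agent.K3h82.FQ4
open Pool.Agent.Y158.GR
open Pool.Agent.Y158.KL (lam Kl KLem)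

section reg

variable {K : Type} [Field K] [NumberField K] {ℓ : ℕ}
  [hp : Fact ℓ.Prime] [hK : IsCyclotomicExtension {ℓ} ℚ K] {ζ : K} (hζ : IsPrimitiveRoot ζ ℓ)
  {F Ω B : Type} [Field F] [Field Ω] [Field B] [Algebra K F] [Algebra F Ω] [Algebra K Ω]
  [Algebra K B] [IsScalarTower K F Ω] [IsAlgClosed Ω] [Algebra.IsAlgebraic F Ω] [IsAlgClosure K B]
  {C' : Type} [Field C'] [Algebra (Kl hζ) C'] [Algebra K C'] [IsScalarTower K (Kl hζ) C']
  [IsAlgClosure (Kl hζ) C']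

/-- the place is above a `K`-rational point with a coordinate `0` -/
def PtAt (K : Type) {N C : Type} [Field K] [Field N] [Field C] [Algebra K N] [Algebra K C]
    (ℓ n : ℕ) (a : K) (p : Plc K N C) (x y : N) : Prop :=
  (∃ r : K, r ^ (ℓ ^ (n + 1)) = a ^ ℓ ∧ p.val x (algebraMap K C r) ∧ p.val y 0) ∨
  (∃ r : K, r ^ ℓ = a ^ ℓ ∧ p.val x 0 ∧ p.val y (algebraMap K C r)) ∨
  (∃ r : K, r ^ ℓ = -1 ∧ p.val x⁻¹ 0 ∧ p.val (y * x⁻¹ ^ (ℓ ^ n)) (algebraMap K C r))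

include hK hζ in
/-- the local point is a rational point -/
theorem ftPoint (hodd : Odd ℓ) (hcop : (classNumber K).Coprime ℓ) (hKL : KLem ℓ K) {n : ℕ} {a : K}
    (ha : a ≠ 0) {K' : Type} [Field K'] [NumberField K'] [Algebra K K'] [Normal K K']
    (hsp : (((X : K[X]) ^ (ℓ ^ (n + 1)) - C (a ^ ℓ)).map (algebraMap K K')).Splits)
    {i : K' →ₐ[K] C'} (hall : AllAt (Kl hζ) i)
    (N : IntermediateField F Ω) (s : GalSection K F N B) (x y : N)
    (hxs : ∀ g, s.s g x = x) (hys : ∀ g, s.s g y = y) (hx : Transcendental K (x : Ω))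
    (hΩ : Algebra.IsAlgebraic (IntermediateField.adjoin K {(x : Ω)}) Ω)
    (hxy : x ^ (ℓ ^ (n + 1)) + y ^ ℓ = algebraMap K N a ^ ℓ)
    (hN : ∀ z ∈ geomPro ℓ K (IntermediateField.adjoin K {(x : Ω), (y : Ω)}) Ω, z ∈ N)
    (pl : Plc K N C') (hpv : s.GivenBy (Kl hζ) pl) : PtAt K ℓ n a pl x y := by
  haveI : Algebra.IsAlgebraic K B := IsAlgClosure.isAlgebraic
  haveI : Normal K B := IsAlgClosure.normal K B
  haveI : CharZero (Kl hζ) := charZero_of_injective_algebraMap (algebraMap K (Kl hζ)).injective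
  have hℓ0 : ℓ ≠ 0 := hp.out.ne_zero
  have hpos : 0 < ℓ ^ n := pow_pos hp.out.pos _
  have hpos' : 0 < ℓ ^ (n + 1) := pow_pos hp.out.pos _
  have haN : algebraMap K N a ≠ 0 := (_root_.map_ne_zero _).2 ha
  have haC : algebraMap K C' a ≠ 0 := (_root_.map_ne_zero _).2 ha
  have haV : pl.val (algebraMap K N a) (algebraMap K C' a) := Plc.val_alg a
  have hrat : ∀ z : N, (∀ g, s.s g z = z) → ∀ c : C', pl.val z c →
      ∃ r : Kl hζ, algebraMap (Kl hζ) C' r = c := by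
    intro z hz c hc
    obtain ⟨r, hr⟩ := fixL_val (Lv := Kl hζ) hpv z hz hc.mem
    obtain ⟨hm, h3⟩ := hc
    exact ⟨r, hr.trans h3⟩
  have hζi : ∀ j : ℕ, (ζ ^ j) ^ ℓ = 1 := fun j => by
    rw [← pow_mul, mul_comm, pow_mul, hζ.pow_eq_one, one_pow]
  have hx0 : x ≠ 0 := by
    rintro rfl
    apply hx
    rw [ZeroMemClass.coe_zero]
    exact isAlgebraic_zero
  rcases ftVal hζ hodd hcop hKL ha N s x y hxs hys hx hΩ hxy hN pl hpv with h | h | h
  · right; left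
    have h1 : pl.val ((y / algebraMap K N a) ^ ℓ)
        ((algebraMap K C' a ^ ℓ - 0 ^ (ℓ ^ (n + 1))) * (algebraMap K C' a)⁻¹ ^ ℓ) := by
      have h2 : (y / algebraMap K N a) ^ ℓ =
          (algebraMap K N a ^ ℓ - x ^ (ℓ ^ (n + 1))) * (algebraMap K N a)⁻¹ ^ ℓ := by
        rw [← hxy, div_eq_mul_inv, mul_pow]
        ring
      rw [h2]
      exact ((haV.pow ℓ).sub (h.pow _)).mul ((haV.inv haC).pow ℓ)
    obtain ⟨j, hj⟩ := val_root hp.out.pos hζ h1 (by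
      rw [zero_pow hpos'.ne', sub_zero, ← mul_pow, mul_inv_cancel₀ haC, one_pow])
    refine ⟨a * ζ ^ j, by rw [mul_pow, hζi, mul_one], h, ?_⟩
    have h3 := haV.mul hj
    rwa [mul_div_cancel₀ _ haN, ← map_mul] at h3
  · left
    have h1 : pl.val (x ^ (ℓ ^ (n + 1))) (algebraMap K C' a ^ ℓ - 0 ^ ℓ) := by
      have h2 : x ^ (ℓ ^ (n + 1)) = algebraMap K N a ^ ℓ - y ^ ℓ := by rw [← hxy]; ring
      rw [h2]
      exact (haV.pow ℓ).sub (h.pow ℓ)
    obtain ⟨c, hc⟩ := Plc.val_of_mem (Plc.mem_of_pow_mem hpos' h1.mem)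
    have hcc := (hc.pow _).unique h1
    rw [zero_pow hℓ0, sub_zero] at hcc
    obtain ⟨r, rfl⟩ := hrat x hxs c hc
    obtain ⟨r', hr'⟩ := root_rat (L := Kl hζ) (X_pow_sub_C_ne_zero hpos' (a ^ ℓ)) hsp hall (c := r) (by
      rw [map_sub, map_pow, aeval_X, aeval_C, hcc, map_pow, sub_self])
    refine ⟨r', ?_, by rw [hr']; exact hc, h⟩
    apply (algebraMap K C').injective
    rw [map_pow, map_pow, hr']
    exact hcc
  · right; right
    obtain ⟨η, hη⟩ : ∃ η : N, η = y * x⁻¹ ^ (ℓ ^ n) := ⟨_, rfl⟩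
    have h1 : pl.val ((-η) ^ ℓ) (1 - algebraMap K C' a ^ ℓ * 0 ^ (ℓ ^ (n + 1))) := by
      have h2 : (-η) ^ ℓ = 1 - algebraMap K N a ^ ℓ * x⁻¹ ^ (ℓ ^ (n + 1)) := by
        have h3 : (x⁻¹ ^ (ℓ ^ n)) ^ ℓ = x⁻¹ ^ (ℓ ^ (n + 1)) := by rw [← pow_mul, ← pow_succ]
        have h4 : x ^ (ℓ ^ (n + 1)) * x⁻¹ ^ (ℓ ^ (n + 1)) = 1 := by
          rw [← mul_pow, mul_inv_cancel₀ hx0, one_pow]
        rw [hodd.neg_pow, hη, mul_pow, h3, ← hxy]
        linear_combination h4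
      rw [h2]
      exact Plc.val_one.sub ((haV.pow ℓ).mul (h.pow _))
    obtain ⟨j, hj⟩ := val_root hp.out.pos hζ h1 (by
      rw [zero_pow hpos'.ne', mul_zero, sub_zero])
    refine ⟨-ζ ^ j, by rw [hodd.neg_pow, hζi], h, ?_⟩
    rw [← hη]
    have h2 := Plc.val_zero.sub hj
    rwa [zero_sub, zero_sub, neg_neg, ← map_neg] at h2

include hK hζ in
/-- **the theorem over `ℚ(ζ_ℓ)`** -/
theorem ftK (hodd : Odd ℓ) (hcop : (classNumber K).Coprime ℓ) (hKL : KLem ℓ K)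
    {p : ℕ} (hpp : p.Prime) (hpK : (Ideal.span {(p : 𝓞 K)}).IsPrime)
    (hpl : ¬ (ℓ : ℤ) ^ 2 ∣ (p : ℤ) ^ (ℓ - 1) - 1) (hne : p ≠ ℓ) {n : ℕ} {a : K}
    (ha : a ≠ 0)
    (hav : ∀ v : HeightOneSpectrum (𝓞 K), (ℓ : 𝓞 K) ∉ v.asIdeal → (p : 𝓞 K) ∉ v.asIdeal →
      v.valuation K a = 1)
    (N : IntermediateField F Ω) (s : GalSection K F N B) (x y : N)
    (hxs : ∀ g, s.s g x = x) (hys : ∀ g, s.s g y = y) (hx : Transcendental K (x : Ω))
    (hΩ : Algebra.IsAlgebraic (IntermediateField.adjoin K {(x : Ω)}) Ω)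
    (hxy : x ^ (ℓ ^ (n + 1)) + y ^ ℓ = algebraMap K N a ^ ℓ)
    (hN : ∀ z ∈ geomPro ℓ K (IntermediateField.adjoin K {(x : Ω), (y : Ω)}) Ω, z ∈ N)
    (pl : Plc K N C') (hpv : s.GivenBy (Kl hζ) pl) :
    PtAt K ℓ n a pl x y ∧
    ∀ (g : B ≃ₐ[K] B) (z : N),
      (z : Ω) ∈ geomPro ℓ K (IntermediateField.adjoin K {(x : Ω), (y : Ω)}) Ω →
      (s.s g z ∈ pl.W ↔ z ∈ pl.W) := by
  classical
  haveI : CharZero (Kl hζ) := charZero_of_injective_algebraMap (algebraMap K (Kl hζ)).injective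
  have hℓ0 : ℓ ≠ 0 := hp.out.ne_zero
  have hpos' : 0 < ℓ ^ (n + 1) := pow_pos hp.out.pos _
  obtain ⟨f, hf⟩ : ∃ f : K[X], f = X ^ (ℓ ^ (n + 1)) - C (a ^ ℓ) := ⟨_, rfl⟩
  obtain ⟨K', i1, i2, i3, i4, hsp, hadj⟩ := exists_split f
  have hcond := cond_reg hζ hcop hKL hpp hpK hpl hne n (b := a ^ ℓ) (pow_ne_zero _ ha)
    (fun v h1 h2 => by rw [map_pow, hav v h1 h2, one_pow]) (C' := C') K' (by rw [← hf]; exact hadj)
  haveI : IsAlgClosed C' := IsAlgClosure.isAlgClosed (Kl hζ)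
  haveI : Algebra.IsAlgebraic K K' := Algebra.IsAlgebraic.of_finite K K'
  have hpt := ftPoint hζ hodd hcop hKL ha (by rw [← hf]; exact hsp)
    (hcond ∅ (by simp) (IsAlgClosed.lift : K' →ₐ[K] C')).1 N s x y hxs hys hx hΩ hxy hN pl hpv
  refine ⟨hpt, fun g z hz => ?_⟩
  have hm : f.Monic := by rw [hf]; exact monic_X_pow_sub_C _ hpos'.ne'
  have hdeg : f.natDegree = ℓ ^ (n + 1) := by rw [hf]; exact natDegree_X_pow_sub_C
  have hs : f.Separable := by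
    rw [hf]
    refine separable_X_pow_sub_C _ ?_ (pow_ne_zero _ ha)
    rw [Nat.cast_pow]
    exact pow_ne_zero _ (by exact_mod_cast hℓ0)
  have hprod := split_prod (K' := K') hm hs hsp
  obtain ⟨E, hE⟩ : ∃ E : Finset K', E = (f.map (algebraMap K K')).roots.toFinset := ⟨_, rfl⟩
  have hcard : E.card = ℓ ^ (n + 1) := by
    have h1 : (f.map (algebraMap K K')).roots.Nodup := nodup_roots hs.map
    rw [hE, Multiset.toFinset_card_of_nodup h1, ← hsp.natDegree_eq_card_roots, natDegree_map, hdeg]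
  have hroots : ∀ e ∈ E, aeval e f = 0 := by
    intro e he
    rw [hE, Multiset.mem_toFinset, mem_roots'] at he
    rw [← eval_map_algebraMap]
    exact he.2
  rw [← hE] at hprod
  have hninf : ninf ℓ E.card = 0 := by
    rw [hcard]
    unfold ninf
    rw [if_pos (dvd_pow_self ℓ (by omega))]
  have hmm : mm ℓ E.card = ℓ ^ n := by
    unfold mm
    rw [hninf, hcard, add_zero, pow_succ, Nat.mul_div_cancel _ hp.out.pos]
  have h3 : 3 ≤ ℓ := by
    have h1 := hp.out.two_le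
    rcases hodd with ⟨k, hk⟩
    omega
  refine ptUP (K := K) (K' := K') (ℓ := ℓ) (hζ.map_of_injective (algebraMap K K').injective)
    (E := E) (Or.inl (by rw [hcard]; exact dvd_pow_self ℓ (by omega))) ?_
    (neg_ne_zero.2 one_ne_zero : (-1 : K) ≠ 0) hprod
    (fun i => (hcond ∅ (by simp) i).1) (fun i => (hcond E (by rw [← hf]; exact hroots) i).2) N x y
    hx hΩ ?_ hN s hxs hys pl hpv ?_ g z hz
  · rw [hninf, hcard, add_zero]
    exact h3.trans (Nat.le_self_pow (by omega) ℓ)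
  · have h1 := congrArg (algebraMap N Ω) hxy
    rw [map_add, map_pow, map_pow, map_pow] at h1
    have h2 : (x : Ω) ^ (ℓ ^ (n + 1)) + (y : Ω) ^ ℓ = algebraMap K Ω a ^ ℓ := h1
    rw [hf, map_sub, map_pow, aeval_X, aeval_C, map_pow, map_neg, map_one]
    linear_combination -h2
  · rw [hmm]
    rcases hpt with ⟨r, -, h1, h2⟩ | ⟨r, -, h1, h2⟩ | ⟨r, -, h1, h2⟩
    · exact Or.inl ⟨r, 0, h1, by rwa [map_zero]⟩
    · exact Or.inl ⟨0, r, by rwa [map_zero], h2⟩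
    · exact Or.inr ⟨h1, r, h2⟩

end reg

end Pool.Agent.K3h82.FT
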