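import Pool.Agent.K3h82.FT.GVal
import Pool.Agent.K3h82.FT.Reg

/-!
# Sections for the curves `g(x) ^ ℓ + y ^ ℓ = a ^ ℓ` over `ℚ(ζ_ℓ)` (2)
-/

set_option autoImplicit false
set_option linter.all false

open Polynomial FF Pool.Agent.Y157.PS Pool.Agent.TH954 IsDedekindDomain NumberField

namespace Pool.Agent.K3h82.FT

open Pool.Agent.K3h82.BT Pool.Agent.K3h82.OP Pool.Agent.K3h82.OT Pool.Agent.K3h82.PC
open Pool.Agent.K3h82.FQ4
open Pool.Agent.Y158.GR
open Pool.Agent.Y158.KL (lam Kl KLem)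

section pl

variable {K N C' : Type} [Field K] [Field N] [Field C'] [Algebra K N] [Algebra K C']
  {pl : Plc K N C'}

/-- values of polynomials -/
theorem val_aeval {u : N} {c : C'} (h : pl.val u c) (q : K[X]) :
    pl.val (aeval u q) (aeval c q) := by
  induction q using Polynomial.induction_on' with
  | add p q hp hq => rw [map_add, map_add]; exact hp.add hq
  | monomial n a =>
    rw [aeval_monomial, aeval_monomial]
    exact (Plc.val_alg a).mul (h.pow n)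

/-- values of monic polynomials at infinity -/
theorem val_inf {x : N} (hx0 : x ≠ 0) (h : pl.val x⁻¹ 0) {g : K[X]} (hg : g.Monic) :
    pl.val (aeval x g * x⁻¹ ^ g.natDegree) 1 := by
  have h1 := val_aeval h g.reverse
  have h2 : aeval x⁻¹ g.reverse = aeval x g * x⁻¹ ^ g.natDegree := by
    haveI := invertibleOfNonzero hx0
    have h3 := eval₂_reverse_mul_pow (algebraMap K N) x g
    rw [invOf_eq_inv] at h3
    rw [aeval_def, aeval_def, ← h3, mul_assoc, ← mul_pow, mul_inv_cancel₀ hx0, one_pow, mul_one]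
  have h4 : aeval (0 : C') g.reverse = 1 := by
    rw [← coeff_zero_eq_aeval_zero', coeff_zero_reverse, hg.leadingCoeff, map_one]
  rwa [h2, h4] at h1

/-- the place is above a `K`-rational point -/
def PtG (K : Type) {N C : Type} [Field K] [Field N] [Field C] [Algebra K N] [Algebra K C]
    (ℓ : ℕ) (g : K[X]) (a : K) (p : Plc K N C) (x y : N) : Prop :=
  (∃ r : K, (g.eval r) ^ ℓ = a ^ ℓ ∧ p.val x (algebraMap K C r) ∧ p.val y 0) ∨
  (∃ r t : K, g.eval r = 0 ∧ t ^ ℓ = a ^ ℓ ∧ p.val x (algebraMap K C r) ∧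
    p.val y (algebraMap K C t)) ∨
  (∃ t : K, t ^ ℓ = -1 ∧ p.val x⁻¹ 0 ∧ p.val (y * x⁻¹ ^ g.natDegree) (algebraMap K C t))

end pl

section reg

variable {K : Type} [Field K] [NumberField K] {ℓ : ℕ}
  [hp : Fact ℓ.Prime] [hK : IsCyclotomicExtension {ℓ} ℚ K] {ζ : K} (hζ : IsPrimitiveRoot ζ ℓ)
  {F Ω B : Type} [Field F] [Field Ω] [Field B] [Algebra K F] [Algebra F Ω] [Algebra K Ω]
  [Algebra K B] [IsScalarTower K F Ω] [IsAlgClosed Ω] [Algebra.IsAlgebraic F Ω] [IsAlgClosure K B]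
  {C' : Type} [Field C'] [Algebra (Kl hζ) C'] [Algebra K C'] [IsScalarTower K (Kl hζ) C']
  [IsAlgClosure (Kl hζ) C']

include hK hζ in
/-- the local point is a rational point -/
theorem gPoint (hodd : Odd ℓ) (hcop : (classNumber K).Coprime ℓ) (hKL : KLem ℓ K) {g : K[X]}
    (hg : g.Monic) (hD : g.natDegree ≠ 0) {a : K} (ha : a ≠ 0)
    (hsf : (g ^ ℓ - C (a ^ ℓ)).Separable)
    (hroot : ∀ c : Kl hζ, aeval c g = 0 → ∃ r : K, algebraMap K (Kl hζ) r = c)
    {K' : Type} [Field K'] [NumberField K'] [Algebra K K'] [Normal K K']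
    (hsp : ((g ^ ℓ - C (a ^ ℓ)).map (algebraMap K K')).Splits)
    {i : K' →ₐ[K] C'} (hall : AllAt (Kl hζ) i)
    (N : IntermediateField F Ω) (s : GalSection K F N B) (x y : N)
    (hxs : ∀ g, s.s g x = x) (hys : ∀ g, s.s g y = y) (hx : Transcendental K (x : Ω))
    (hΩ : Algebra.IsAlgebraic (IntermediateField.adjoin K {(x : Ω)}) Ω)
    (hxy : aeval x g ^ ℓ + y ^ ℓ = algebraMap K N a ^ ℓ)
    (hN : ∀ z ∈ geomPro ℓ K (IntermediateField.adjoin K {(x : Ω), (y : Ω)}) Ω, z ∈ N)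
    (pl : Plc K N C') (hpv : s.GivenBy (Kl hζ) pl) : PtG K ℓ g a pl x y := by
  haveI : Algebra.IsAlgebraic K B := IsAlgClosure.isAlgebraic
  haveI : Normal K B := IsAlgClosure.normal K B
  haveI : CharZero (Kl hζ) := charZero_of_injective_algebraMap (algebraMap K (Kl hζ)).injective
  have hℓ0 : ℓ ≠ 0 := hp.out.ne_zero
  have haN : algebraMap K N a ≠ 0 := (_root_.map_ne_zero _).2 ha
  have haC : algebraMap K C' a ≠ 0 := (_root_.map_ne_zero _).2 ha
  have haV : pl.val (algebraMap K N a) (algebraMap K C' a) := Plc.val_alg a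
  have hrat : ∀ z : N, (∀ g, s.s g z = z) → ∀ c : C', pl.val z c →
      ∃ r : Kl hζ, algebraMap (Kl hζ) C' r = c := by
    intro z hz c hc
    obtain ⟨r, hr⟩ := fixL_val (Lv := Kl hζ) hpv z hz hc.mem
    obtain ⟨hm, h3⟩ := hc
    exact ⟨r, hr.trans h3⟩
  have hζi : ∀ j : ℕ, (ζ ^ j) ^ ℓ = 1 := fun j => by
    rw [← pow_mul, mul_comm, pow_mul, hζ.pow_eq_one, one_pow]
  have hx0 : x ≠ 0 := by
    rintro rfl
    apply hx
    rw [ZeroMemClass.coe_zero]
    exact isAlgebraic_zero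
  have hval := gVal hζ hodd hcop hKL hg hD ha hsf N s x y hxs hys hx hΩ hxy hN pl hpv
  by_cases hxW : x ∈ pl.W
  · obtain ⟨c, hc⟩ := Plc.val_of_mem hxW
    have hgc := val_aeval hc g
    obtain ⟨c', rfl⟩ := hrat x hxs c hc
    rcases hval with h | h | h
    · right; left
      have h0 := hgc.unique h
      rw [aeval_algebraMap_apply, _root_.map_eq_zero] at h0
      obtain ⟨r, rfl⟩ := hroot c' h0
      have h1 : pl.val ((y / algebraMap K N a) ^ ℓ)
          ((algebraMap K C' a ^ ℓ - 0 ^ ℓ) * (algebraMap K C' a)⁻¹ ^ ℓ) := by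
        have h2 : (y / algebraMap K N a) ^ ℓ =
            (algebraMap K N a ^ ℓ - aeval x g ^ ℓ) * (algebraMap K N a)⁻¹ ^ ℓ := by
          rw [← hxy, div_eq_mul_inv, mul_pow]
          ring
        rw [h2]
        exact ((haV.pow ℓ).sub (h.pow _)).mul ((haV.inv haC).pow ℓ)
      obtain ⟨j, hj⟩ := val_root hp.out.pos hζ h1 (by
        rw [zero_pow hℓ0, sub_zero, ← mul_pow, mul_inv_cancel₀ haC, one_pow])
      refine ⟨r, a * ζ ^ j, ?_, by rw [mul_pow, hζi, mul_one], ?_, ?_⟩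
      · rw [aeval_algebraMap_apply, _root_.map_eq_zero] at h0
        rw [← coe_aeval_eq_eval]
        exact h0
      · rw [IsScalarTower.algebraMap_apply K (Kl hζ) C']
        exact hc
      · have h3 := haV.mul hj
        rwa [mul_div_cancel₀ _ haN, ← map_mul] at h3
    · left
      have h1 : pl.val (aeval x g ^ ℓ) (algebraMap K C' a ^ ℓ - 0 ^ ℓ) := by
        have h2 : aeval x g ^ ℓ = algebraMap K N a ^ ℓ - y ^ ℓ := by rw [← hxy]; ring
        rw [h2]
        exact (haV.pow ℓ).sub (h.pow ℓ)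
      have h4 := (hgc.pow ℓ).unique h1
      rw [zero_pow hℓ0, sub_zero] at h4
      have hf0 : (g ^ ℓ - C (a ^ ℓ) : K[X]) ≠ 0 := hsf.ne_zero
      obtain ⟨r, hr⟩ := root_rat (L := Kl hζ) hf0 hsp hall (c := c') (by
        rw [map_sub, map_pow, aeval_C, map_pow, h4, sub_self])
      rw [← hr] at hc h4
      refine ⟨r, ?_, hc, h⟩
      apply (algebraMap K C').injective
      rw [map_pow, map_pow, ← h4, aeval_algebraMap_apply, coe_aeval_eq_eval]
    · exfalso
      have h1 := hgc.mul h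
      rw [mul_zero] at h1
      have h2 : aeval x g ≠ 0 := by
        intro h0
        haveI : IsScalarTower K N Ω := IsScalarTower.of_algebraMap_eq fun _ => rfl
        apply hx
        refine ⟨g, hg.ne_zero, ?_⟩
        have h3 : aeval (algebraMap N Ω x) g = algebraMap N Ω (aeval x g) :=
          aeval_algebraMap_apply Ω x g
        rw [h0, map_zero] at h3
        exact h3
      rw [mul_inv_cancel₀ h2] at h1
      exact one_ne_zero ((Plc.val_one).unique h1)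
  · have hinv := Plc.val_inv_of_notMem hxW
    have hinf := val_inf hx0 hinv hg
    have hpw : pl.val (x⁻¹ ^ g.natDegree) 0 := by
      have h1 := hinv.pow g.natDegree
      rwa [zero_pow hD] at h1
    right; right
    obtain ⟨η, hη⟩ : ∃ η : N, η = y * x⁻¹ ^ g.natDegree := ⟨_, rfl⟩
    have h1 : pl.val ((-η) ^ ℓ) (1 ^ ℓ - algebraMap K C' a ^ ℓ * 0 ^ ℓ) := by
      have h2 : (-η) ^ ℓ = (aeval x g * x⁻¹ ^ g.natDegree) ^ ℓ -
          algebraMap K N a ^ ℓ * (x⁻¹ ^ g.natDegree) ^ ℓ := by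
        rw [hodd.neg_pow, hη, mul_pow, mul_pow, ← hxy]
        ring
      rw [h2]
      exact (hinf.pow ℓ).sub ((haV.pow ℓ).mul (hpw.pow ℓ))
    obtain ⟨j, hj⟩ := val_root hp.out.pos hζ h1 (by
      rw [zero_pow hℓ0, mul_zero, sub_zero, one_pow])
    refine ⟨-ζ ^ j, by rw [hodd.neg_pow, hζi], hinv, ?_⟩
    rw [← hη]
    have h2 := Plc.val_zero.sub hj
    rwa [zero_sub, zero_sub, neg_neg, ← map_neg] at h2

include hK hζ in
/-- **the theorem over `ℚ(ζ_ℓ)`** -/
theorem gK (hodd : Odd ℓ) (hcop : (classNumber K).Coprime ℓ) (hKL : KLem ℓ K)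
    {p : ℕ} (hpp : p.Prime) (hpK : (Ideal.span {(p : 𝓞 K)}).IsPrime)
    (hpl : ¬ (ℓ : ℤ) ^ 2 ∣ (p : ℤ) ^ (ℓ - 1) - 1) (hne : p ≠ ℓ) {g : K[X]}
    (hg : g.Monic) (hD : g.natDegree ≠ 0) {a : K} (ha : a ≠ 0)
    (hsf : (g ^ ℓ - C (a ^ ℓ)).Separable)
    (hroot : ∀ c : Kl hζ, aeval c g = 0 → ∃ r : K, algebraMap K (Kl hζ) r = c)
    (hG : ∀ (K' : Type) [Field K'] [Algebra K K'],
      Algebra.adjoin K ((g ^ ℓ - C (a ^ ℓ)).rootSet K') = ⊤ →
      ((g ^ ℓ - C (a ^ ℓ)).map (algebraMap K K')).Splits →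
      ∀ σ : K' ≃ₐ[K] K', ∃ n : ℕ, σ ^ (ℓ ^ n) = 1)
    (hgood : ∀ v : HeightOneSpectrum (𝓞 K), (ℓ : 𝓞 K) ∉ v.asIdeal → (p : 𝓞 K) ∉ v.asIdeal →
      SepAt v (g ^ ℓ - C (a ^ ℓ)))
    (N : IntermediateField F Ω) (s : GalSection K F N B) (x y : N)
    (hxs : ∀ g, s.s g x = x) (hys : ∀ g, s.s g y = y) (hx : Transcendental K (x : Ω))
    (hΩ : Algebra.IsAlgebraic (IntermediateField.adjoin K {(x : Ω)}) Ω)
    (hxy : aeval x g ^ ℓ + y ^ ℓ = algebraMap K N a ^ ℓ)
    (hN : ∀ z ∈ geomPro ℓ K (IntermediateField.adjoin K {(x : Ω), (y : Ω)}) Ω, z ∈ N)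
    (pl : Plc K N C') (hpv : s.GivenBy (Kl hζ) pl) :
    PtG K ℓ g a pl x y ∧
    ∀ (g : B ≃ₐ[K] B) (z : N),
      (z : Ω) ∈ geomPro ℓ K (IntermediateField.adjoin K {(x : Ω), (y : Ω)}) Ω →
      (s.s g z ∈ pl.W ↔ z ∈ pl.W) := by
  classical
  haveI : CharZero (Kl hζ) := charZero_of_injective_algebraMap (algebraMap K (Kl hζ)).injective
  have hℓ0 : ℓ ≠ 0 := hp.out.ne_zero
  have hdeg0 : 0 < ℓ * g.natDegree := Nat.mul_pos hp.out.pos (Nat.pos_of_ne_zero hD)
  obtain ⟨f, hf⟩ : ∃ f : K[X], f = g ^ ℓ - C (a ^ ℓ) := ⟨_, rfl⟩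
  have hdeg : f.natDegree = ℓ * g.natDegree := by
    rw [hf, natDegree_sub_C, natDegree_pow]
  have hm : f.Monic := by
    rw [hf]
    refine (hg.pow ℓ).sub_of_left ?_
    refine degree_C_le.trans_lt ?_
    rw [← natDegree_pos_iff_degree_pos, natDegree_pow]
    exact hdeg0
  obtain ⟨K', i1, i2, i3, i4, hsp, hadj⟩ := exists_split f
  haveI : IsAlgClosed C' := IsAlgClosure.isAlgClosed (Kl hζ)
  haveI : Algebra.IsAlgebraic K K' := Algebra.IsAlgebraic.of_finite K K'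
  have hcond := fun (E : Finset K') (hE : ∀ e ∈ E, aeval e f = 0) (i : K' →ₐ[K] C') =>
    tower_cond hζ hm (neg_ne_zero.2 one_ne_zero : (-1 : K) ≠ 0) (L := Kl hζ)
      (locPow_reg hζ hcop hKL hpp hpK hpl hne fun v h1 h2 =>
        ⟨h1, ⟨1, by rw [Valuation.map_neg, map_one, one_pow]⟩, by rw [hf]; exact hgood v h1 h2⟩)
      hadj (fun σ => hG K' (by rw [← hf]; exact hadj) (by rw [← hf]; exact hsp) σ) E hE i
  have hpt := gPoint hζ hodd hcop hKL hg hD ha hsf hroot (by rw [← hf]; exact hsp)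
    (hcond ∅ (by simp) (IsAlgClosed.lift : K' →ₐ[K] C')).1 N s x y hxs hys hx hΩ hxy hN pl hpv
  refine ⟨hpt, fun g' z hz => ?_⟩
  have hs : f.Separable := by rw [hf]; exact hsf
  have hprod := split_prod (K' := K') hm hs hsp
  obtain ⟨E, hE⟩ : ∃ E : Finset K', E = (f.map (algebraMap K K')).roots.toFinset := ⟨_, rfl⟩
  have hcard : E.card = ℓ * g.natDegree := by
    have h1 : (f.map (algebraMap K K')).roots.Nodup := nodup_roots hs.map
    rw [hE, Multiset.toFinset_card_of_nodup h1, ← hsp.natDegree_eq_card_roots, natDegree_map, hdeg]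
  have hroots : ∀ e ∈ E, aeval e f = 0 := by
    intro e he
    rw [hE, Multiset.mem_toFinset, mem_roots'] at he
    rw [← eval_map_algebraMap]
    exact he.2
  rw [← hE] at hprod
  have hninf : ninf ℓ E.card = 0 := by
    rw [hcard]
    unfold ninf
    rw [if_pos (Dvd.intro _ rfl)]
  have hmm : mm ℓ E.card = g.natDegree := by
    unfold mm
    rw [hninf, hcard, add_zero, Nat.mul_div_cancel_left _ hp.out.pos]
  have h3 : 3 ≤ ℓ := by
    have h1 := hp.out.two_le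
    rcases hodd with ⟨k, hk⟩
    omega
  refine ptUP (K := K) (K' := K') (ℓ := ℓ) (hζ.map_of_injective (algebraMap K K').injective)
    (E := E) (Or.inl (by rw [hcard]; exact Dvd.intro _ rfl)) ?_
    (neg_ne_zero.2 one_ne_zero : (-1 : K) ≠ 0) hprod
    (fun i => (hcond ∅ (by simp) i).1) (fun i => (hcond E hroots i).2) N x y
    hx hΩ ?_ hN s hxs hys pl hpv ?_ g' z hz
  · rw [hninf, hcard, add_zero]
    exact h3.trans (Nat.le_mul_of_pos_right ℓ (Nat.pos_of_ne_zero hD))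
  · haveI : IsScalarTower K N Ω := IsScalarTower.of_algebraMap_eq fun _ => rfl
    have h1 := congrArg (algebraMap N Ω) hxy
    rw [map_add, map_pow, map_pow, map_pow, ← aeval_algebraMap_apply] at h1
    have h2 : aeval (x : Ω) g ^ ℓ + (y : Ω) ^ ℓ = algebraMap K Ω a ^ ℓ := h1
    rw [hf, map_sub, map_pow, aeval_C, map_pow, map_neg, map_one]
    linear_combination -h2
  · rw [hmm]
    rcases hpt with ⟨r, -, h1, h2⟩ | ⟨r, t, -, -, h1, h2⟩ | ⟨r, -, h1, h2⟩
    · exact Or.inl ⟨r, 0, h1, by rwa [map_zero]⟩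
    · exact Or.inl ⟨r, t, h1, h2⟩
    · exact Or.inr ⟨h1, r, h2⟩

end reg

end Pool.Agent.K3h82.FT
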