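import Pool.Agent.K3h82.FT.Val

/-!
# Sections for the curves `g(x) ^ ℓ + y ^ ℓ = a ^ ℓ` over `ℚ(ζ_ℓ)`
-/

set_option autoImplicit false
set_option linter.all false

open Polynomial FF Pool.Agent.Y157.PS Pool.Agent.TH954 IsDedekindDomain NumberField

namespace Pool.Agent.K3h82.FT

open Pool.Agent.K3h82.BT Pool.Agent.K3h82.OP Pool.Agent.K3h82.OT Pool.Agent.K3h82.PC
open Pool.Agent.K3h82.FQ4
open Pool.Agent.Y158.GR
open Pool.Agent.Y158.FQ (geomPro_base alg_over)
open Pool.Agent.Y158.KL (lam Kl KLem)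

/-- change of the transcendental element -/
theorem alg_chg' {k Ω : Type} [Field k] [Field Ω] [Algebra k Ω] {X x : Ω}
    (hX : Algebra.IsAlgebraic (IntermediateField.adjoin k {X}) Ω)
    {g : k[X]} (hg : g.Monic) (hD : g.natDegree ≠ 0)
    (h : aeval X g ∈ IntermediateField.adjoin k {x}) :
    Algebra.IsAlgebraic (IntermediateField.adjoin k {x}) Ω := by
  obtain ⟨E₁, hE₁⟩ : ∃ E₁ : IntermediateField k Ω, E₁ = IntermediateField.adjoin k {x} := ⟨_, rfl⟩
  rw [← hE₁] at h ⊢
  have hXalg : IsAlgebraic E₁ X := by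
    refine IsAlgebraic.of_aeval (g.map (algebraMap k E₁)) ?_ ?_ ?_
    · rwa [natDegree_map]
    · rw [(hg.map _).leadingCoeff]
      exact one_mem _
    · rw [aeval_map_algebraMap]
      exact isAlgebraic_algebraMap (⟨_, h⟩ : E₁)
  let E₂ : IntermediateField E₁ Ω := IntermediateField.adjoin E₁ {X}
  haveI : Algebra.IsAlgebraic E₁ E₂ := IntermediateField.isAlgebraic_adjoin (by
    intro t ht
    rw [Set.mem_singleton_iff] at ht
    rw [ht]
    exact hXalg.isIntegral)
  have h2 : Algebra.IsAlgebraic (E₂.restrictScalars k) Ω :=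
    alg_over (k := k) (F := Ω) (Ω := Ω) (x := X) hX (E₂.restrictScalars k)
      (IntermediateField.mem_adjoin_simple_self E₁ X)
  haveI : Algebra.IsAlgebraic E₂ Ω := h2
  exact Algebra.IsAlgebraic.trans E₁ E₂ Ω

/-- values of a polynomial at a fixed element -/
theorem fix_aeval {K F Ω B : Type} [Field K] [Field F] [Field Ω] [Field B] [Algebra K F]
    [Algebra F Ω] [Algebra K Ω] [IsScalarTower K F Ω] [Algebra K B] {N : IntermediateField F Ω}
    (s : GalSection K F N B) (g : K[X]) {x : N} {σ : B ≃ₐ[K] B} (h : s.s σ x = x) :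
    s.s σ (aeval x g) = aeval x g := by
  let φ : N →ₐ[K] N := { ((s.s σ : N ≃ₐ[F] N) : N →+* N) with
    commutes' := fun c => by
      change s.s σ (algebraMap K N c) = _
      rw [← s.j.commutes, s.sec, σ.commutes] }
  have hφ : ∀ z, φ z = s.s σ z := fun z => rfl
  have h1 := aeval_algHom_apply φ x g
  rw [hφ, hφ, h] at h1
  exact h1.symm

section val

variable {K : Type} [Field K] [NumberField K] {ℓ : ℕ}
  [hp : Fact ℓ.Prime] [hK : IsCyclotomicExtension {ℓ} ℚ K] {ζ : K} (hζ : IsPrimitiveRoot ζ ℓ)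
  {F Ω B : Type} [Field F] [Field Ω] [Field B] [Algebra K F] [Algebra F Ω] [Algebra K Ω]
  [Algebra K B] [IsScalarTower K F Ω] [IsAlgClosed Ω] [Algebra.IsAlgebraic F Ω] [IsAlgClosure K B]
  {C' : Type} [Field C'] [Algebra (Kl hζ) C'] [Algebra K C'] [IsScalarTower K (Kl hζ) C']
  [IsAlgClosure (Kl hζ) C']

include hK hζ in
/-- the value, from the map to the Fermat curve -/
theorem gVal (hodd : Odd ℓ) (hcop : (classNumber K).Coprime ℓ) (hKL : KLem ℓ K) {g : K[X]}
    (hg : g.Monic) (hD : g.natDegree ≠ 0) {a : K} (ha : a ≠ 0)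
    (hsf : (g ^ ℓ - C (a ^ ℓ)).Separable) (N : IntermediateField F Ω) (s : GalSection K F N B)
    (x y : N) (hxs : ∀ g, s.s g x = x) (hys : ∀ g, s.s g y = y) (hx : Transcendental K (x : Ω))
    (hΩ : Algebra.IsAlgebraic (IntermediateField.adjoin K {(x : Ω)}) Ω)
    (hxy : aeval x g ^ ℓ + y ^ ℓ = algebraMap K N a ^ ℓ)
    (hN : ∀ z ∈ geomPro ℓ K (IntermediateField.adjoin K {(x : Ω), (y : Ω)}) Ω, z ∈ N)
    (pl : Plc K N C') (hpv : s.GivenBy (Kl hζ) pl) :
    pl.val (aeval x g) 0 ∨ pl.val y 0 ∨ pl.val (aeval x g)⁻¹ 0 := by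
  classical
  haveI : Algebra.IsAlgebraic K B := IsAlgClosure.isAlgebraic
  haveI : IsScalarTower K N Ω := IsScalarTower.of_algebraMap_eq fun _ => rfl
  have hℓ0 : ℓ ≠ 0 := hp.out.ne_zero
  have haN : algebraMap K N a ≠ 0 := (_root_.map_ne_zero _).2 ha
  have haC : algebraMap K C' a ≠ 0 := (_root_.map_ne_zero _).2 ha
  have haΩ : algebraMap K Ω a ≠ 0 := (_root_.map_ne_zero _).2 ha
  obtain ⟨t, ht⟩ : ∃ t : N, t = aeval x g := ⟨_, rfl⟩
  have htΩ : (t : Ω) = aeval (x : Ω) g := by
    rw [ht]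
    exact (aeval_algebraMap_apply Ω x g).symm
  have hts : ∀ σ, s.s σ t = t := fun σ => by rw [ht]; exact fix_aeval s g (hxs σ)
  rw [← ht] at hxy ⊢
  obtain ⟨X, hX⟩ : ∃ X : N, X = t / algebraMap K N a := ⟨_, rfl⟩
  obtain ⟨Y, hY⟩ : ∃ Y : N, Y = y / algebraMap K N a := ⟨_, rfl⟩
  have hXY : X ^ ℓ + Y ^ ℓ = 1 := by
    rw [hX, hY, div_pow, div_pow, ← add_div, hxy, div_self (pow_ne_zero _ haN)]
  have hXs : ∀ g, s.s g X = X := by
    intro g
    have h1 : s.s g (algebraMap K N a) = algebraMap K N a := by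
      rw [← s.j.commutes, s.sec, g.commutes]
    rw [hX, map_div₀, hts, h1]
  have hYs : ∀ g, s.s g Y = Y := by
    intro g
    have h1 : s.s g (algebraMap K N a) = algebraMap K N a := by
      rw [← s.j.commutes, s.sec, g.commutes]
    rw [hY, map_div₀, hys, h1]
  obtain ⟨F', i1, i2, i3, i4, i5, N', e, s', p', he, hS, hpv₁, hval, hmem, hs, hNN', -⟩ :=
    exists_ext s pl hpv {X, Y} (fun z hz h => by
      rcases hz with hz | hz
      · rw [hz, hXs]
      · rw [Set.mem_singleton_iff] at hz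
        rw [hz, hYs])
  obtain ⟨X', hX'⟩ := hS X (by simp)
  obtain ⟨Y', hY'⟩ := hS Y (by simp)
  have hXe : algebraMap F' N' X' = e X := by
    apply Subtype.ext
    rw [he]
    exact hX'
  have hYe : algebraMap F' N' Y' = e Y := by
    apply Subtype.ext
    rw [he]
    exact hY'
  have hinj : Function.Injective (algebraMap F' Ω) := (algebraMap F' Ω).injective
  have hXΩ : (X : Ω) = (t : Ω) / algebraMap K Ω a := by
    rw [hX]
    push_cast
    rfl
  have hYΩ : (Y : Ω) = (y : Ω) / algebraMap K Ω a := by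
    rw [hY]
    push_cast
    rfl
  have hxX : aeval (x : Ω) g = algebraMap K Ω a * (X : Ω) := by
    rw [hXΩ, ← htΩ]
    field_simp
  have hXt : Transcendental K (X : Ω) := by
    intro h
    apply hx
    refine IsAlgebraic.of_aeval g hD ?_ ?_
    · rw [hg.leadingCoeff]
      exact one_mem _
    · rw [hxX]
      exact (isAlgebraic_algebraMap a).mul h
  have hXalg : Algebra.IsAlgebraic (IntermediateField.adjoin K {(X : Ω)}) Ω := by
    refine alg_chg' (X := (x : Ω)) hΩ hg hD ?_
    rw [hxX]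
    exact mul_mem ((IntermediateField.adjoin K {(X : Ω)}).algebraMap_mem a)
      (IntermediateField.mem_adjoin_simple_self _ _)
  -- the inclusion of the towers
  have hdegf : (g ^ ℓ - C (a ^ ℓ)).natDegree = ℓ * g.natDegree := by
    rw [natDegree_sub_C, natDegree_pow]
  have hdeg0 : 0 < ℓ * g.natDegree := Nat.mul_pos hp.out.pos (Nat.pos_of_ne_zero hD)
  have hmf : (g ^ ℓ - C (a ^ ℓ)).Monic := by
    refine (hg.pow ℓ).sub_of_left ?_
    refine degree_C_le.trans_lt ?_
    rw [← natDegree_pos_iff_degree_pos, natDegree_pow]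
    exact hdeg0
  have hfxy : SE ℓ (((g ^ ℓ - C (a ^ ℓ) : K[X]).map
      (algebraMap K (algebraicClosure K Ω))).roots.toFinset) (-1 : K) (x : Ω) (y : Ω) := by
    refine SE.of_poly hmf hsf ?_ ?_ (neg_ne_zero.2 one_ne_zero) hx hΩ ?_
    · rw [hdegf]
      exact Or.inl (Dvd.intro _ rfl)
    · rw [hdegf]
      exact hdeg0
    · have h1 := congrArg (algebraMap N Ω) hxy
      rw [map_add, map_pow, map_pow, map_pow] at h1
      have h2 : (t : Ω) ^ ℓ + (y : Ω) ^ ℓ = algebraMap K Ω a ^ ℓ := h1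
      rw [map_sub, map_pow, ← htΩ, aeval_C, map_pow, map_neg, map_one]
      linear_combination -h2
  have hfXY : SE ℓ (((Polynomial.X ^ ℓ - C 1 : K[X]).map
      (algebraMap K (algebraicClosure K Ω))).roots.toFinset) (-1 : K) (X : Ω) (Y : Ω) := by
    have hdeg : (Polynomial.X ^ ℓ - C 1 : K[X]).natDegree = ℓ := natDegree_X_pow_sub_C
    refine SE.of_poly (monic_X_pow_sub_C _ hℓ0) ?_ ?_ ?_
      (neg_ne_zero.2 one_ne_zero) hXt hXalg ?_
    · exact separable_X_pow_sub_C _ (by exact_mod_cast hℓ0) one_ne_zero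
    · rw [hdeg]
      exact Or.inl dvd_rfl
    · rw [hdeg]
      exact hp.out.pos
    · have h1 := congrArg (algebraMap N Ω) hXY
      rw [map_add, map_pow, map_pow, map_one] at h1
      have h2 : (X : Ω) ^ ℓ + (Y : Ω) ^ ℓ = 1 := h1
      rw [map_sub, map_pow, aeval_X, aeval_C, map_neg, map_one]
      linear_combination -h2
  have hmono : ∀ z ∈ geomPro ℓ K (IntermediateField.adjoin K {(X : Ω), (Y : Ω)}) Ω,
      z ∈ geomPro ℓ K (IntermediateField.adjoin K {(x : Ω), (y : Ω)}) Ω := by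
    intro z hz
    have hxR : (x : Ω) ∈ IntermediateField.adjoin (algebraicClosure K Ω) {(x : Ω)} :=
      IntermediateField.mem_adjoin_simple_self _ _
    have hcR : ∀ c : K, algebraMap K Ω c ∈
        IntermediateField.adjoin (algebraicClosure K Ω) {(x : Ω)} := by
      intro c
      rw [IsScalarTower.algebraMap_apply K (algebraicClosure K Ω) Ω]
      exact (IntermediateField.adjoin (algebraicClosure K Ω) {(x : Ω)}).algebraMap_mem _
    have htR : (t : Ω) ∈ IntermediateField.adjoin (algebraicClosure K Ω) {(x : Ω)} := by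
      rw [htΩ, aeval_eq_sum_range]
      refine sum_mem fun k _ => ?_
      rw [Algebra.smul_def]
      exact mul_mem (hcR _) (pow_mem hxR _)
    refine SE.mono hfXY hfxy ?_ ?_ hz
    · rw [hXΩ]
      exact div_mem htR (hcR a)
    · rw [hYΩ]
      have hR : ∀ w ∈ IntermediateField.adjoin (algebraicClosure K Ω) {(x : Ω)}, w ∈
          IntermediateField.adjoin (IntermediateField.adjoin (algebraicClosure K Ω) {(x : Ω)})
            {(y : Ω)} := fun w hw => (IntermediateField.adjoin (IntermediateField.adjoin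
              (algebraicClosure K Ω) {(x : Ω)}) {(y : Ω)}).algebraMap_mem ⟨w, hw⟩
      exact div_mem (IntermediateField.mem_adjoin_simple_self _ _) (hR _ (hcR a))
  have hgp : ∀ z, z ∈ geomPro ℓ K (IntermediateField.adjoin K {X' ^ 1, Y' ^ 1}) Ω ↔
      z ∈ geomPro ℓ K (IntermediateField.adjoin K {(X : Ω), (Y : Ω)}) Ω :=
    geomPro_base (k := K) (K := K) (c := 1) (c' := 1) (one_mem _) (one_mem _) one_ne_zero
      one_ne_zero (by rw [pow_one, hX', one_mul]) (by rw [pow_one, hY', one_mul])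
  obtain ⟨h1, -⟩ := genMain hζ hodd hcop hKL (m := 1) one_ne_zero X' Y' (by
      intro h
      apply hXt
      rw [← hX']
      exact h.algebraMap) (alg_down (by rw [hX']; exact hXalg)) (by
      apply hinj
      rw [mul_one, map_add, map_pow, map_pow, hX', hY', map_one]
      have h1 := congrArg (algebraMap N Ω) hXY
      rw [map_add, map_pow, map_pow, map_one] at h1
      exact h1) N' (fun z hz => (hNN' z).2 (hN z (hmono z ((hgp z).1 hz)))) s' p' hpv₁
  rw [hXe, hYe, ← map_inv₀, hval, hval, hval] at h1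
  have haV : pl.val (algebraMap K N a) (algebraMap K C' a) := Plc.val_alg a
  rcases h1 with h1 | h1 | h1
  · left
    have h2 := haV.mul h1
    rwa [hX, mul_div_cancel₀ _ haN, mul_zero] at h2
  · right; left
    have h2 := haV.mul h1
    rwa [hY, mul_div_cancel₀ _ haN, mul_zero] at h2
  · right; right
    have h2 := h1.mul (haV.inv haC)
    have h3 : X⁻¹ * (algebraMap K N a)⁻¹ = t⁻¹ := by
      rw [hX, inv_div]
      field_simp
    rwa [h3, zero_mul] at h2

end val

end Pool.Agent.K3h82.FT
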