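import Mathlib.NumberTheory.NumberField.Cyclotomic.Ideal
import Mathlib.RingTheory.ZMod.UnitsCyclic
import Mathlib.NumberTheory.LSeries.PrimesInAP

/-!
# Prime numbers which are primitive roots modulo `ℓ ^ 2`
-/

set_option autoImplicit false
set_option linter.all false

open NumberField

namespace Pool.Agent.K3h82.FT

/-- a prime number which is a primitive root modulo `ℓ` is inert in `ℚ(ζ_ℓ)` -/
theorem span_prime {K : Type} [Field K] [NumberField K] {ℓ : ℕ} [hℓ : Fact ℓ.Prime]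
    [hK : IsCyclotomicExtension {ℓ} ℚ K] {p : ℕ} [hp : Fact p.Prime]
    (hord : orderOf (p : ZMod ℓ) = ℓ - 1) (hne : p ≠ ℓ) :
    (Ideal.span {(p : 𝓞 K)}).IsPrime := by
  haveI : NeZero ℓ := ⟨hℓ.out.ne_zero⟩
  have hnd : ¬ p ∣ ℓ := fun h => hne ((Nat.prime_dvd_prime_iff_eq hp.out hℓ.out).1 h)
  have hfin : Module.finrank ℚ K = ℓ - 1 := by
    rw [IsCyclotomicExtension.finrank (n := ℓ) K (Polynomial.cyclotomic.irreducible_rat hℓ.out.pos),
      Nat.totient_prime hℓ.out]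
  have hnorm : Ideal.absNorm (Ideal.span {(p : 𝓞 K)}) = p ^ (ℓ - 1) := by
    rw [Ideal.absNorm_span_singleton]
    have h1 : ((p : ℤ) : 𝓞 K) = algebraMap ℤ (𝓞 K) (p : ℤ) := rfl
    have h2 : (p : 𝓞 K) = algebraMap ℤ (𝓞 K) (p : ℤ) := by rw [← h1]; push_cast; rfl
    rw [h2, Algebra.norm_algebraMap_of_basis (RingOfIntegers.basis K), Int.natAbs_pow,
      Int.natAbs_natCast]
    congr 1
    rw [← Module.finrank_eq_card_basis (RingOfIntegers.basis K), RingOfIntegers.rank, hfin]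
  have h1ℓ : 1 ≤ ℓ - 1 := by
    have := hℓ.out.two_le
    omega
  have hnt : Ideal.span {(p : 𝓞 K)} ≠ ⊤ := by
    intro h
    rw [h, Ideal.absNorm_top] at hnorm
    have h2 : 1 < p ^ (ℓ - 1) := Nat.one_lt_pow (by omega) hp.out.one_lt
    omega
  obtain ⟨P, hP, hle⟩ := Ideal.exists_le_maximal _ hnt
  haveI : P.IsPrime := hP.isPrime
  have hpP : (p : 𝓞 K) ∈ P := hle (Ideal.mem_span_singleton_self _)
  haveI hlo : P.LiesOver (Ideal.span {(p : ℤ)}) := by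
    have hmax : (Ideal.span {(p : ℤ)}).IsMaximal := by
      have h3 : (Ideal.span {(p : ℤ)}).IsPrime := by
        rw [Ideal.span_singleton_prime (by exact_mod_cast hp.out.ne_zero)]
        exact Nat.prime_iff_prime_int.1 hp.out
      refine h3.isMaximal ?_
      rw [Ne, Ideal.span_singleton_eq_bot]
      exact_mod_cast hp.out.ne_zero
    refine ⟨hmax.eq_of_le (Ideal.IsPrime.ne_top inferInstance) ?_⟩
    rw [Ideal.span_singleton_le_iff_mem, Ideal.mem_comap]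
    have h4 : algebraMap ℤ (𝓞 K) (p : ℤ) = (p : 𝓞 K) := by simp
    rw [h4]
    exact hpP
  have hPn : Ideal.absNorm P = p ^ (ℓ - 1) := by
    rw [← Ideal.pow_inertiaDeg p, IsCyclotomicExtension.Rat.inertiaDeg_eq_of_not_dvd p K P hnd,
      hord]
  obtain ⟨Q, hQ⟩ := Ideal.dvd_iff_le.2 hle
  have hQ1 : Ideal.absNorm Q = 1 := by
    have h3 := congrArg Ideal.absNorm hQ
    rw [map_mul, hnorm, hPn] at h3
    have h4 : 0 < p ^ (ℓ - 1) := pow_pos hp.out.pos _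
    exact Nat.eq_of_mul_eq_mul_left h4 (by rw [← h3, mul_one])
  rw [Ideal.absNorm_eq_one_iff] at hQ1
  rw [hQ, hQ1, Ideal.mul_top]
  infer_instance

/-- **there are prime numbers `p` with the conditions** -/
theorem exists_inert (K : Type) [Field K] [NumberField K] {ℓ : ℕ} [hℓ : Fact ℓ.Prime]
    [hK : IsCyclotomicExtension {ℓ} ℚ K] (hℓ2 : ℓ ≠ 2) :
    ∃ p : ℕ, p.Prime ∧ p ≠ ℓ ∧ (Ideal.span {(p : 𝓞 K)}).IsPrime ∧
      ¬ (ℓ : ℤ) ^ 2 ∣ (p : ℤ) ^ (ℓ - 1) - 1 := by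
  haveI : NeZero ℓ := ⟨hℓ.out.ne_zero⟩
  haveI : NeZero (ℓ ^ 2) := ⟨pow_ne_zero _ hℓ.out.ne_zero⟩
  haveI := ZMod.isCyclic_units_of_prime_pow ℓ hℓ.out hℓ2 2
  obtain ⟨g, hg⟩ := IsCyclic.exists_generator (α := (ZMod (ℓ ^ 2))ˣ)
  have hog : orderOf g = ℓ * (ℓ - 1) := by
    rw [orderOf_eq_card_of_forall_mem_zpowers hg, Nat.card_eq_fintype_card,
      ZMod.card_units_eq_totient, Nat.totient_prime_pow hℓ.out (by norm_num)]
    ring_nf
  obtain ⟨p, hpℓ, hp, hpg⟩ := Nat.forall_exists_prime_gt_and_eq_mod (q := ℓ ^ 2)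
    (a := (g : ZMod (ℓ ^ 2))) g.isUnit ℓ
  haveI : Fact p.Prime := ⟨hp⟩
  have hdvd : ℓ ∣ ℓ ^ 2 := dvd_pow_self ℓ (by norm_num)
  have hgen : ∀ u : (ZMod ℓ)ˣ, u ∈ Subgroup.zpowers (ZMod.unitsMap hdvd g) := by
    intro u
    obtain ⟨t, rfl⟩ := ZMod.unitsMap_surjective hdvd u
    obtain ⟨k, hk⟩ := hg t
    exact ⟨k, by rw [← hk]; exact (map_zpow _ _ _).symm⟩
  have hord : orderOf (p : ZMod ℓ) = ℓ - 1 := by
    have h1 : ((ZMod.unitsMap hdvd g : (ZMod ℓ)ˣ) : ZMod ℓ) = (p : ZMod ℓ) := by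
      rw [ZMod.unitsMap_val, ← hpg]
      exact ZMod.cast_natCast hdvd p
    rw [← h1, orderOf_units, orderOf_eq_card_of_forall_mem_zpowers hgen,
      Nat.card_eq_fintype_card, ZMod.card_units_eq_totient, Nat.totient_prime hℓ.out]
  refine ⟨p, hp, hpℓ.ne', span_prime hord hpℓ.ne', fun h => ?_⟩
  have h1 : (p : ZMod (ℓ ^ 2)) ^ (ℓ - 1) = 1 := by
    have h2 : (((ℓ ^ 2 : ℕ) : ℤ)) ∣ (p : ℤ) ^ (ℓ - 1) - 1 := by
      push_cast
      exact h
    have h3 := (ZMod.intCast_zmod_eq_zero_iff_dvd _ (ℓ ^ 2)).2 h2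
    push_cast at h3
    exact sub_eq_zero.1 h3
  rw [hpg] at h1
  have h2 : g ^ (ℓ - 1) = 1 := by
    apply Units.ext
    push_cast
    exact h1
  have h3 : ℓ * (ℓ - 1) ∣ ℓ - 1 := by
    rw [← hog]
    exact orderOf_dvd_of_pow_eq_one h2
  have h4 := hℓ.out.two_le
  have h5 := Nat.le_of_dvd (by omega) h3
  have h6 : 2 * (ℓ - 1) ≤ ℓ * (ℓ - 1) := Nat.mul_le_mul_right _ h4
  omega

end Pool.Agent.K3h82.FT
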