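import Pool.Agent.K3h82.FT.Cond
import Pool.Agent.K3h82.PC.PMain
import Pool.Agent.K3h82.PC.PGeo
import Pool.Agent.Y158.GR.Pt
import Pool.Agent.Y158.FQ.Fin2

/-!
# Sections for the curves `x ^ (ℓ ^ m) + y ^ ℓ = a ^ ℓ` over `ℚ(ζ_ℓ)`
-/

set_option autoImplicit false
set_option linter.all false

open Polynomial FF Pool.Agent.Y157.PS Pool.Agent.TH954 IsDedekindDomain NumberField

namespace Pool.Agent.K3h82.FT

open Pool.Agent.K3h82.BT Pool.Agent.K3h82.OP Pool.Agent.K3h82.OT Pool.Agent.K3h82.PC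
open Pool.Agent.K3h82.FQ4
open Pool.Agent.Y158.GR
open Pool.Agent.Y158.FQ (geomPro_base)
open Pool.Agent.Y158.KL (lam Kl KLem)

/-- a root of `f` in `L` is in `K`, if all automorphisms of the splitting field come from `L` -/
theorem root_rat {K K' L C' : Type} [Field K] [NumberField K] [Field K'] [NumberField K']
    [Algebra K K'] [Normal K K'] [Field L] [Field C'] [Algebra L C'] [Algebra K C'] {f : K[X]}
    (hf : f ≠ 0) (hsp : (f.map (algebraMap K K')).Splits) {i : K' →ₐ[K] C'} (hall : AllAt L i)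
    {c : L} (hc : aeval (algebraMap L C' c) f = 0) :
    ∃ r : K, algebraMap K C' r = algebraMap L C' c := by
  haveI : FiniteDimensional K K' := Module.Finite.of_restrictScalars_finite ℚ K K'
  haveI : IsGalois K K' := ⟨⟩
  have h1 : algebraMap L C' c ∈ ((f.map (algebraMap K K')).map (i : K' →+* C')).roots := by
    rw [mem_roots (by
      rw [Polynomial.map_map]
      exact (Polynomial.map_ne_zero_iff (RingHom.injective _)).2 hf), IsRoot, Polynomial.map_map,
      eval_map]
    have h2 : ((i : K' →+* C').comp (algebraMap K K')) = algebraMap K C' :=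
      RingHom.ext fun z => i.commutes z
    rw [h2]
    exact hc
  rw [hsp.roots_map, Multiset.mem_map] at h1
  obtain ⟨e, -, he⟩ := h1
  have he' : i e = algebraMap L C' c := he
  have h3 : e ∈ (⊥ : IntermediateField K K') := by
    rw [IsGalois.mem_bot_iff_fixed]
    intro σ
    obtain ⟨τ, hτ⟩ := hall σ
    have h5 : i (σ e) = i e := by rw [hτ, he', τ.commutes]
    exact i.toRingHom.injective h5
  obtain ⟨r, hr⟩ := IntermediateField.mem_bot.1 h3
  refine ⟨r, ?_⟩
  rw [← he', ← hr, i.commutes]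

section val

variable {K : Type} [Field K] [NumberField K] {ℓ : ℕ}
  [hp : Fact ℓ.Prime] [hK : IsCyclotomicExtension {ℓ} ℚ K] {ζ : K} (hζ : IsPrimitiveRoot ζ ℓ)
  {F Ω B : Type} [Field F] [Field Ω] [Field B] [Algebra K F] [Algebra F Ω] [Algebra K Ω]
  [Algebra K B] [IsScalarTower K F Ω] [IsAlgClosed Ω] [Algebra.IsAlgebraic F Ω] [IsAlgClosure K B]
  {C' : Type} [Field C'] [Algebra (Kl hζ) C'] [Algebra K C'] [IsScalarTower K (Kl hζ) C']
  [IsAlgClosure (Kl hζ) C']

include hK hζ in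
/-- the value, from the map to the Fermat curve -/
theorem ftVal (hodd : Odd ℓ) (hcop : (classNumber K).Coprime ℓ) (hKL : KLem ℓ K) {n : ℕ} {a : K}
    (ha : a ≠ 0) (N : IntermediateField F Ω) (s : GalSection K F N B) (x y : N)
    (hxs : ∀ g, s.s g x = x) (hys : ∀ g, s.s g y = y) (hx : Transcendental K (x : Ω))
    (hΩ : Algebra.IsAlgebraic (IntermediateField.adjoin K {(x : Ω)}) Ω)
    (hxy : x ^ (ℓ ^ (n + 1)) + y ^ ℓ = algebraMap K N a ^ ℓ)
    (hN : ∀ z ∈ geomPro ℓ K (IntermediateField.adjoin K {(x : Ω), (y : Ω)}) Ω, z ∈ N)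
    (pl : Plc K N C') (hpv : s.GivenBy (Kl hζ) pl) :
    pl.val x 0 ∨ pl.val y 0 ∨ pl.val x⁻¹ 0 := by
  classical
  haveI : Algebra.IsAlgebraic K B := IsAlgClosure.isAlgebraic
  have hℓ0 : ℓ ≠ 0 := hp.out.ne_zero
  have hpos : 0 < ℓ ^ n := pow_pos hp.out.pos _
  have haN : algebraMap K N a ≠ 0 := (_root_.map_ne_zero _).2 ha
  have haC : algebraMap K C' a ≠ 0 := (_root_.map_ne_zero _).2 ha
  have haΩ : algebraMap K Ω a ≠ 0 := (_root_.map_ne_zero _).2 ha
  obtain ⟨X, hX⟩ : ∃ X : N, X = x ^ (ℓ ^ n) / algebraMap K N a := ⟨_, rfl⟩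
  obtain ⟨Y, hY⟩ : ∃ Y : N, Y = y / algebraMap K N a := ⟨_, rfl⟩
  have hXY : X ^ ℓ + Y ^ ℓ = 1 := by
    rw [hX, hY, div_pow, div_pow, ← pow_mul, ← pow_succ, ← add_div, hxy,
      div_self (pow_ne_zero _ haN)]
  have hXs : ∀ g, s.s g X = X := by
    intro g
    have h1 : s.s g (algebraMap K N a) = algebraMap K N a := by
      rw [← s.j.commutes, s.sec, g.commutes]
    rw [hX, map_div₀, map_pow, hxs, h1]
  have hYs : ∀ g, s.s g Y = Y := by
    intro g
    have h1 : s.s g (algebraMap K N a) = algebraMap K N a := by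
      rw [← s.j.commutes, s.sec, g.commutes]
    rw [hY, map_div₀, hys, h1]
  obtain ⟨F', i1, i2, i3, i4, i5, N', e, s', p', he, hS, hpv₁, hval, hmem, hs, hNN', -⟩ :=
    exists_ext s pl hpv {X, Y} (fun z hz h => by
      rcases hz with hz | hz
      · rw [hz, hXs]
      · rw [Set.mem_singleton_iff] at hz
        rw [hz, hYs])
  obtain ⟨X', hX'⟩ := hS X (by simp)
  obtain ⟨Y', hY'⟩ := hS Y (by simp)
  have hXe : algebraMap F' N' X' = e X := by
    apply Subtype.ext
    rw [he]
    exact hX'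
  have hYe : algebraMap F' N' Y' = e Y := by
    apply Subtype.ext
    rw [he]
    exact hY'
  have hinj : Function.Injective (algebraMap F' Ω) := (algebraMap F' Ω).injective
  have hXΩ : (X : Ω) = (x : Ω) ^ (ℓ ^ n) / algebraMap K Ω a := by
    rw [hX]
    push_cast
    rfl
  have hYΩ : (Y : Ω) = (y : Ω) / algebraMap K Ω a := by
    rw [hY]
    push_cast
    rfl
  have hxX : (x : Ω) ^ (ℓ ^ n) = algebraMap K Ω a * (X : Ω) := by
    rw [hXΩ]
    field_simp
  have hXt : Transcendental K (X : Ω) := by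
    intro h
    apply hx
    have h1 : IsAlgebraic K ((x : Ω) ^ (ℓ ^ n)) := by
      rw [hxX]
      exact (isAlgebraic_algebraMap a).mul h
    exact h1.of_pow hpos
  have hXalg : Algebra.IsAlgebraic (IntermediateField.adjoin K {(X : Ω)}) Ω := by
    refine alg_chg (X := (x : Ω)) hΩ (n := ℓ ^ n) hpos ?_
    rw [hxX]
    exact mul_mem ((IntermediateField.adjoin K {(X : Ω)}).algebraMap_mem a)
      (IntermediateField.mem_adjoin_simple_self _ _)
  -- the inclusion of the towers
  have hfxy : SE ℓ (((Polynomial.X ^ (ℓ ^ (n + 1)) - C (a ^ ℓ) : K[X]).map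
      (algebraMap K (algebraicClosure K Ω))).roots.toFinset) (-1 : K) (x : Ω) (y : Ω) := by
    have hdeg : (Polynomial.X ^ (ℓ ^ (n + 1)) - C (a ^ ℓ) : K[X]).natDegree = ℓ ^ (n + 1) :=
      natDegree_X_pow_sub_C
    refine SE.of_poly (monic_X_pow_sub_C _ (pow_pos hp.out.pos _).ne') ?_ ?_ ?_
      (neg_ne_zero.2 one_ne_zero) hx hΩ ?_
    · refine separable_X_pow_sub_C _ ?_ (pow_ne_zero _ ha)
      rw [Nat.cast_pow]
      exact pow_ne_zero _ (by exact_mod_cast hℓ0)
    · rw [hdeg]
      exact Or.inl (dvd_pow_self ℓ (by omega))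
    · rw [hdeg]
      exact pow_pos hp.out.pos _
    · have h1 := congrArg (algebraMap N Ω) hxy
      rw [map_add, map_pow, map_pow, map_pow] at h1
      have h2 : (x : Ω) ^ (ℓ ^ (n + 1)) + (y : Ω) ^ ℓ = algebraMap K Ω a ^ ℓ := h1
      rw [map_sub, map_pow, aeval_X, aeval_C, map_pow, map_neg, map_one]
      linear_combination -h2
  have hfXY : SE ℓ (((Polynomial.X ^ ℓ - C 1 : K[X]).map
      (algebraMap K (algebraicClosure K Ω))).roots.toFinset) (-1 : K) (X : Ω) (Y : Ω) := by
    have hdeg : (Polynomial.X ^ ℓ - C 1 : K[X]).natDegree = ℓ := natDegree_X_pow_sub_C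
    refine SE.of_poly (monic_X_pow_sub_C _ hℓ0) ?_ ?_ ?_
      (neg_ne_zero.2 one_ne_zero) hXt hXalg ?_
    · exact separable_X_pow_sub_C _ (by exact_mod_cast hℓ0) one_ne_zero
    · rw [hdeg]
      exact Or.inl dvd_rfl
    · rw [hdeg]
      exact hp.out.pos
    · have h1 := congrArg (algebraMap N Ω) hXY
      rw [map_add, map_pow, map_pow, map_one] at h1
      have h2 : (X : Ω) ^ ℓ + (Y : Ω) ^ ℓ = 1 := h1
      rw [map_sub, map_pow, aeval_X, aeval_C, map_neg, map_one]
      linear_combination -h2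
  have hmono : ∀ z ∈ geomPro ℓ K (IntermediateField.adjoin K {(X : Ω), (Y : Ω)}) Ω,
      z ∈ geomPro ℓ K (IntermediateField.adjoin K {(x : Ω), (y : Ω)}) Ω := by
    intro z hz
    have hxR : (x : Ω) ∈ IntermediateField.adjoin (algebraicClosure K Ω) {(x : Ω)} :=
      IntermediateField.mem_adjoin_simple_self _ _
    have haR : algebraMap K Ω a ∈ IntermediateField.adjoin (algebraicClosure K Ω) {(x : Ω)} := by
      rw [IsScalarTower.algebraMap_apply K (algebraicClosure K Ω) Ω]
      exact (IntermediateField.adjoin (algebraicClosure K Ω) {(x : Ω)}).algebraMap_mem _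
    refine SE.mono hfXY hfxy ?_ ?_ hz
    · rw [hXΩ]
      exact div_mem (pow_mem hxR _) haR
    · rw [hYΩ]
      have hR : ∀ w ∈ IntermediateField.adjoin (algebraicClosure K Ω) {(x : Ω)}, w ∈
          IntermediateField.adjoin (IntermediateField.adjoin (algebraicClosure K Ω) {(x : Ω)})
            {(y : Ω)} := fun w hw => (IntermediateField.adjoin (IntermediateField.adjoin
              (algebraicClosure K Ω) {(x : Ω)}) {(y : Ω)}).algebraMap_mem ⟨w, hw⟩
      exact div_mem (IntermediateField.mem_adjoin_simple_self _ _) (hR _ haR)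
  have hgp : ∀ z, z ∈ geomPro ℓ K (IntermediateField.adjoin K {X' ^ 1, Y' ^ 1}) Ω ↔
      z ∈ geomPro ℓ K (IntermediateField.adjoin K {(X : Ω), (Y : Ω)}) Ω :=
    geomPro_base (k := K) (K := K) (c := 1) (c' := 1) (one_mem _) (one_mem _) one_ne_zero
      one_ne_zero (by rw [pow_one, hX', one_mul]) (by rw [pow_one, hY', one_mul])
  obtain ⟨h1, -⟩ := genMain hζ hodd hcop hKL (m := 1) one_ne_zero X' Y' (by
      intro h
      apply hXt
      rw [← hX']
      exact h.algebraMap) (alg_down (by rw [hX']; exact hXalg)) (by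
      apply hinj
      rw [mul_one, map_add, map_pow, map_pow, hX', hY', map_one]
      have h1 := congrArg (algebraMap N Ω) hXY
      rw [map_add, map_pow, map_pow, map_one] at h1
      exact h1) N' (fun z hz => (hNN' z).2 (hN z (hmono z ((hgp z).1 hz)))) s' p' hpv₁
  rw [hXe, hYe, ← map_inv₀, hval, hval, hval] at h1
  have haV : pl.val (algebraMap K N a) (algebraMap K C' a) := Plc.val_alg a
  have hzero : ∀ {w : N} {k : ℕ}, 0 < k → pl.val (w ^ k) 0 → pl.val w 0 := by
    intro w k hk hw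
    obtain ⟨c, hc⟩ := Plc.val_of_mem (Plc.mem_of_pow_mem hk hw.mem)
    have h4 : c = 0 := pow_eq_zero_iff hk.ne' |>.1 ((hc.pow k).unique hw)
    rwa [h4] at hc
  rcases h1 with h1 | h1 | h1
  · left
    have h2 := haV.mul h1
    rw [hX, mul_div_cancel₀ _ haN, mul_zero] at h2
    exact hzero hpos h2
  · right; left
    have h2 := haV.mul h1
    rw [hY, mul_div_cancel₀ _ haN, mul_zero] at h2
    exact h2
  · right; right
    have h2 := h1.mul (haV.inv haC)
    have h3 : X⁻¹ * (algebraMap K N a)⁻¹ = x⁻¹ ^ (ℓ ^ n) := by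
      rw [hX, inv_div, inv_pow]
      field_simp
    rw [h3, zero_mul] at h2
    exact hzero hpos h2

end val

end Pool.Agent.K3h82.FT
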